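import Pool.Agent.H297.FT.Defs
import Pool.Agent.H891R2.Jones.Final
import Pool.Agent.H891R2.Jones.Closed

set_option autoImplicit false

namespace Pool.Agent.H297.FT

open Finset Pool.Agent.H891R2.Jones

variable {m : ℕ}

theorem mem_word {off n : ℕ} (h : off + n ≤ m) : ∀ i ∈ twistWord n off, i + 1 < m := by
  intro i hi
  have := twistWord_mem n off i hi
  omega

theorem pat_inj : ∀ u v : Fin m → Bool, pat u = pat v → u = v := by
  intro u v h
  funext j
  have := congrFun h j
  simp only [pat, Fin.is_lt, dif_pos] at this
  revert this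
  cases u j <;> cases v j <;> simp

theorem lk_eq (O : Outer m) {off n : ℕ} (h : off + n ≤ m) :
    lk O off n = ∑ j ∈ range n, pat O.up (off + j) := by
  unfold lk
  have h1 : ∀ j : Fin m, (if off ≤ (j : ℕ) ∧ (j : ℕ) < off + n then 
      (if O.up j then (1 : ℤ) else -1) else 0) = 
      (fun i : ℕ => if off ≤ i ∧ i < off + n then pat O.up i else 0) (j : ℕ) := by
    intro j
    simp [pat]
  rw [Finset.sum_congr rfl (fun j _ => h1 j), ← Finset.sum_range 
    (fun i : ℕ => if off ≤ i ∧ i < off + n then pat O.up i else 0), ← Finset.sum_filter]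
  symm
  apply Finset.sum_bij (fun j _ => off + j)
  · intro j hj
    rw [Finset.mem_range] at hj
    rw [Finset.mem_filter, Finset.mem_range]
    omega
  · intro i _ j _ hij
    omega
  · intro i hi
    rw [Finset.mem_filter, Finset.mem_range] at hi
    exact ⟨i - off, by rw [Finset.mem_range]; omega, by omega⟩
  · intro j _
    rfl

theorem pat_sq (u : Fin m → Bool) {off n : ℕ} (h : off + n ≤ m) :
    ∑ j ∈ range n, pat u (off + j) ^ 2 = n := by
  have : ∀ j ∈ range n, pat u (off + j) ^ 2 = 1 := by
    intro j hj
    rw [Finset.mem_range] at hj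
    have hj' : off + j < m := by omega
    simp only [pat, hj', dif_pos]
    split_ifs <;> norm_num
  rw [Finset.sum_congr rfl this]
  simp

theorem lk_parity (O : Outer m) {off n : ℕ} (h : off + n ≤ m) : (lk O off n - n) % 2 = 0 := by
  rw [lk_eq O h]
  have : ∀ t, t ≤ n → (∑ j ∈ range t, pat O.up (off + j) - t) % 2 = 0 := by
    intro t
    induction t with
    | zero => intro _; simp
    | succ t ih =>
      intro ht
      have h1 := ih (by omega)
      rw [Finset.sum_range_succ]
      have hj' : off + t < m := by omega
      have h2 : pat O.up (off + t) = 1 ∨ pat O.up (off + t) = -1 := by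
        simp only [pat, hj', dif_pos]
        split_ifs <;> simp
      push_cast
      rcases h2 with h2 | h2 <;> rw [h2] <;> omega
  exact this n le_rfl

/-- one full twist does not change the directions, and changes the writhe by `l^2 - n` -/
theorem box_one_true (O : Outer m) {off n : ℕ} (h : off + n ≤ m) :
    owr (O.pushList true (twistWord n off)) = owr O + ((lk O off n) ^ 2 - n) ∧
    (O.pushList true (twistWord n off)).up = O.up := by
  obtain ⟨h1, h2⟩ := pushList_writhe true (twistWord n off) O (mem_word h)
  rw [(twistWord_act n off _).1] at h2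
  refine ⟨?_, pat_inj _ _ h2⟩
  rw [h1, (twistWord_act n off (pat O.up)).2, pat_sq _ h, lk_eq O h]
  simp

theorem box_one_false (O : Outer m) {off n : ℕ} (h : off + n ≤ m) :
    owr (O.pushList false (twistWord n off).reverse) = owr O - ((lk O off n) ^ 2 - n) ∧
    (O.pushList false (twistWord n off).reverse).up = O.up := by
  obtain ⟨h1, h2⟩ := pushList_writhe false (twistWord n off).reverse O
    (fun i hi => mem_word h i (List.mem_reverse.1 hi))
  obtain ⟨h5, h6⟩ := reverse_act (twistWord n off) (pat O.up)
  rw [(twistWord_act n off _).1] at h5 h6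
  rw [h5] at h2
  rw [h6] at h1
  refine ⟨?_, pat_inj _ _ h2⟩
  rw [h1, (twistWord_act n off (pat O.up)).2, pat_sq _ h, lk_eq O h]
  simp
  ring

theorem box_writhe (O : Outer m) {off n : ℕ} (h : off + n ≤ m) (a : ℤ) :
    owr (box O off n a) = owr O + a * ((lk O off n) ^ 2 - n) ∧ (box O off n a).up = O.up := by
  have hpos : ∀ (t : ℕ) (O : Outer m), 
      owr ((fun O : Outer m => O.pushList true (twistWord n off))^[t] O) = 
        owr O + t * ((lk O off n) ^ 2 - n) ∧ 
      ((fun O : Outer m => O.pushList true (twistWord n off))^[t] O).up = O.up := by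
    intro t
    induction t with
    | zero => intro O; simp
    | succ t ih =>
      intro O
      obtain ⟨h1, h2⟩ := box_one_true O h
      have h4 : lk (O.pushList true (twistWord n off)) off n = lk O off n := by
        unfold lk; rw [h2]
      rw [Function.iterate_succ_apply]
      refine ⟨?_, (ih _).2.trans h2⟩
      rw [(ih _).1, h4, h1]
      push_cast
      ring
  have hneg : ∀ (t : ℕ) (O : Outer m), 
      owr ((fun O : Outer m => O.pushList false (twistWord n off).reverse)^[t] O) = 
        owr O - t * ((lk O off n) ^ 2 - n) ∧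
      ((fun O : Outer m => O.pushList false (twistWord n off).reverse)^[t] O).up = O.up := by
    intro t
    induction t with
    | zero => intro O; simp
    | succ t ih =>
      intro O
      obtain ⟨h1, h2⟩ := box_one_false O h
      have h4 : lk (O.pushList false (twistWord n off).reverse) off n = lk O off n := by
        unfold lk; rw [h2]
      rw [Function.iterate_succ_apply]
      refine ⟨?_, (ih _).2.trans h2⟩
      rw [(ih _).1, h4, h1]
      push_cast
      ring
  rcases a with t | t
  · have := hpos t O
    refine ⟨?_, this.2⟩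
    rw [box, this.1]
    simp
  · have := hneg (t+1) O
    refine ⟨?_, this.2⟩
    rw [box, this.1, Int.negSucc_eq]
    push_cast
    ring

theorem box_good (O : Outer m) (off n : ℕ) (a : ℤ) (v : Fin m → Bool) (hO : Good O v) :
    Good (box O off n a) v := by
  have hpos : ∀ (t : ℕ) (O' : Outer m), Good O' v → 
      Good ((fun O : Outer m => O.pushList true (twistWord n off))^[t] O') v := by
    intro t
    induction t with
    | zero => intro O' h; exact h
    | succ t ih =>
      intro O' h
      rw [Function.iterate_succ_apply]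
      exact ih _ (Good_pushList _ _ _ _ h)
  have hneg : ∀ (t : ℕ) (O' : Outer m), Good O' v → 
      Good ((fun O : Outer m => O.pushList false (twistWord n off).reverse)^[t] O') v := by
    intro t
    induction t with
    | zero => intro O' h; exact h
    | succ t ih =>
      intro O' h
      rw [Function.iterate_succ_apply]
      exact ih _ (Good_pushList _ _ _ _ h)
  rcases a with t | t
  · exact hpos t O hO
  · exact hneg (t+1) O hO

/-- the full twist on `n` strands as a unit of the endomorphism ring -/
noncomputable def bUnit {A : ℂ} (hA : A ≠ 0) (m N : ℕ) (hN : (N : ℂ) = -A^2 - A⁻¹^2) 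
    (off n : ℕ) (h : off + n ≤ m) : 
    (Module.End ℂ ((Fin m → Fin N) → ((Fin m → Fin N) → ℂ)))ˣ where
  val := FF (sg A (ee m N _)) n off
  inv := ((twistWord n off).reverse.map (sg A⁻¹ (ee m N _))).prod
  val_inv := by
    rw [← twistWord_prod]
    refine prod_reverse _ _ _ (fun i hi => ?_)
    have := mem_word h i hi
    exact sg_inv hA hN (isTL_ee m N) i (by omega)
  inv_val := by
    rw [← twistWord_prod]
    refine prod_reverse' _ _ _ (fun i hi => ?_)
    have := mem_word h i hi
    exact sg_inv' hA hN (isTL_ee m N) i (by omega)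

theorem Zg_box {N : ℕ} {A : ℂ} (hA : A ≠ 0) (hN : (N : ℂ) = -A^2 - A⁻¹^2) (O : Outer m) 
    (off n : ℕ) (h : off + n ≤ m) (a : ℤ)
    (g : (Fin m → Fin N) → ((Fin m → Fin N) → ℂ)) :
    Zg A N (box O off n a) g = Zg A N O (((bUnit hA m N hN off n h ^ a : 
      (Module.End ℂ ((Fin m → Fin N) → ((Fin m → Fin N) → ℂ)))ˣ) : 
        Module.End ℂ ((Fin m → Fin N) → ((Fin m → Fin N) → ℂ))) g) := by
  have hpos : ∀ (t : ℕ) (O : Outer m) (g : (Fin m → Fin N) → ((Fin m → Fin N) → ℂ)), 
      Zg A N ((fun O : Outer m => O.pushList true (twistWord n off))^[t] O) g = 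
      Zg A N O (((bUnit hA m N hN off n h ^ t : 
      (Module.End ℂ ((Fin m → Fin N) → ((Fin m → Fin N) → ℂ)))ˣ) : 
        Module.End ℂ ((Fin m → Fin N) → ((Fin m → Fin N) → ℂ))) g) := by
    intro t
    induction t with
    | zero => intro O g; simp
    | succ t ih =>
      intro O g
      rw [Function.iterate_succ_apply, ih, Zg_pushList_true _ O (mem_word h), twistWord_prod, 
        pow_succ']
      rfl
  have hneg : ∀ (t : ℕ) (O : Outer m) (g : (Fin m → Fin N) → ((Fin m → Fin N) → ℂ)), 
      Zg A N ((fun O : Outer m => O.pushList false (twistWord n off).reverse)^[t] O) g = 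
      Zg A N O ((((bUnit hA m N hN off n h)⁻¹ ^ t : 
      (Module.End ℂ ((Fin m → Fin N) → ((Fin m → Fin N) → ℂ)))ˣ) : 
        Module.End ℂ ((Fin m → Fin N) → ((Fin m → Fin N) → ℂ))) g) := by
    intro t
    induction t with
    | zero => intro O g; simp
    | succ t ih =>
      intro O g
      rw [Function.iterate_succ_apply, ih, Zg_pushList_false _ O 
        (fun i hi => mem_word h i (List.mem_reverse.1 hi)), pow_succ']
      rfl
  rcases a with t | t
  · rw [box, hpos]; simp
  · rw [box, hneg, zpow_negSucc, inv_pow]

/-! ### several boxes -/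

variable {k : ℕ}

theorem fillL_writhe (B : Boxes m k) (a : Fin k → ℤ) (l : List (Fin k)) : ∀ (O : Outer m),
    owr (fillL B a l O) = owr O + (l.map (fun e => a e * ((lk O (B.off e) (B.size e)) ^ 2 - B.size e))).sum ∧
    (fillL B a l O).up = O.up := by
  induction l with
  | nil => intro O; simp [fillL]
  | cons e l ih =>
    intro O
    obtain ⟨h1, h2⟩ := box_writhe O (B.le e) (a e)
    obtain ⟨h3, h4⟩ := ih (box O (B.off e) (B.size e) (a e))
    have h5 : ∀ o n, lk (box O (B.off e) (B.size e) (a e)) o n = lk O o n := by
      intro o n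
      unfold lk; rw [h2]
    have h6 : fillL B a (e :: l) O = fillL B a l (box O (B.off e) (B.size e) (a e)) := rfl
    rw [h6]
    refine ⟨?_, h4.trans h2⟩
    rw [h3, h1, List.map_cons, List.sum_cons]
    simp only [h5]
    ring

theorem family_writhe (O : Outer m) (B : Boxes m k) (a : Fin k → ℤ) :
    (family O B a).writhe = O.close.writhe + ∑ e, a e * ((lk O (B.off e) (B.size e)) ^ 2 - B.size e) := by
  have h := (fillL_writhe B a (List.finRange k) O).1
  rw [← Fin.sum_univ_def] at h
  exact h

theorem fillL_good (B : Boxes m k) (a : Fin k → ℤ) (v : Fin m → Bool) (l : List (Fin k)) : 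
    ∀ (O : Outer m), Good O v → Good (fillL B a l O) v := by
  induction l with
  | nil => intro O h; exact h
  | cons e l ih =>
    intro O h
    exact ih _ (box_good O _ _ _ v h)

theorem family_closed (O : Outer m) (h : O.close.IsClosed) (B : Boxes m k) (a : Fin k → ℤ) :
    (family O B a).IsClosed := by
  unfold family
  rw [closed_iff, show (fill O B a).up = O.up from (fillL_writhe B a (List.finRange k) O).2]
  rw [closed_iff] at h
  exact fillL_good B a O.up (List.finRange k) O h

theorem Zg_fillL {N : ℕ} {A : ℂ} (hA : A ≠ 0) (hN : (N : ℂ) = -A^2 - A⁻¹^2) (B : Boxes m k)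
    (a : Fin k → ℤ) (l : List (Fin k)) : ∀ (O : Outer m)
    (g : (Fin m → Fin N) → ((Fin m → Fin N) → ℂ)),
    Zg A N (fillL B a l O) g = Zg A N O ((l.map (fun e => ((bUnit hA m N hN (B.off e) (B.size e) (B.le e) ^ a e : 
      (Module.End ℂ ((Fin m → Fin N) → ((Fin m → Fin N) → ℂ)))ˣ) : 
        Module.End ℂ ((Fin m → Fin N) → ((Fin m → Fin N) → ℂ))))).prod g) := by
  induction l with
  | nil => intro O g; rfl
  | cons e l ih =>
    intro O g
    have h6 : fillL B a (e :: l) O = fillL B a l (box O (B.off e) (B.size e) (a e)) := rfl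
    rw [h6, ih, Zg_box hA hN, List.map_cons, List.prod_cons]
    rfl

end Pool.Agent.H297.FT
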