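import Pool.Agent.H297.FT.Defs

set_option autoImplicit false

namespace Pool.Agent.H297.FT

open Finset Pool.Agent.H891R2.Jones

variable {m k m' k' : ℕ}

/-- the linear forms on `ℤ^k × ℤ^k'`: the `w_s(a)` of the first and the `w'_s(a')` of the second
family -/
def ww (O : Outer m) (B : Boxes m k) (O' : Outer m') (B' : Boxes m' k') : 
    Ind B ⊕ Ind B' → (Fin k → ℤ) × (Fin k' → ℤ) → ℤ
  | Sum.inl r, p => wt O B (some r) p.1
  | Sum.inr r, p => wt O' B' (some r) p.2

theorem ww_sub (O : Outer m) (B : Boxes m k) (O' : Outer m') (B' : Boxes m' k') 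
    (i : Ind B ⊕ Ind B') (p q : (Fin k → ℤ) × (Fin k' → ℤ)) : 
    ww O B O' B' i (p - q) = ww O B O' B' i p - ww O B O' B' i q := by
  rcases i with r | r
  · exact wt_sub O B (some r) p.1 q.1
  · exact wt_sub O' B' (some r) p.2 q.2

theorem ww_zero (O : Outer m) (B : Boxes m k) (O' : Outer m') (B' : Boxes m' k') 
    (i : Ind B ⊕ Ind B') : ww O B O' B' i 0 = 0 := by
  have := ww_sub O B O' B' i 0 0
  rw [sub_zero, sub_self] at this
  exact this

/-- the subgroup of the `(a, a')` with equal values of the linear forms number `s` and `t` for all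
`(s, t) ∈ E` -/
def Lam2 (O : Outer m) (B : Boxes m k) (O' : Outer m') (B' : Boxes m' k') 
    (E : Finset ((Ind B ⊕ Ind B') × (Ind B ⊕ Ind B'))) : 
    AddSubgroup ((Fin k → ℤ) × (Fin k' → ℤ)) where
  carrier := {p | ∀ q ∈ E, ww O B O' B' q.1 p = ww O B O' B' q.2 p}
  zero_mem' := by
    intro q _
    rw [ww_zero, ww_zero]
  add_mem' := by
    intro a b ha hb q hq
    have h1 := ha q hq
    have h2 := hb q hq
    have h : ∀ i, ww O B O' B' i (a + b) = ww O B O' B' i a + ww O B O' B' i b := by
      intro i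
      have := ww_sub O B O' B' i (a + b) b
      rw [add_sub_cancel_right] at this
      omega
    rw [h, h, h1, h2]
  neg_mem' := by
    intro a ha q hq
    have h1 := ha q hq
    have h : ∀ i, ww O B O' B' i (-a) = - ww O B O' B' i a := by
      intro i
      have := ww_sub O B O' B' i 0 a
      rw [zero_sub, ww_zero] at this
      omega
    rw [h, h, h1]

end Pool.Agent.H297.FT
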