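import Pool.Agent.H297.FT.Vas
import Pool.Agent.H297.FT.CoinDefs

set_option autoImplicit false

namespace Pool.Agent.H297.FT

open Finset LaurentPolynomial Pool.Agent.H891R2.Jones Pool.Agent.H832R3.VJ

variable {m k m' k' : ℕ}

/-- the exponents of `x` -/
noncomputable def u2 (O : Outer m) (B : Boxes m k) (O' : Outer m') (B' : Boxes m' k') 
    (p : (Fin k → ℤ) × (Fin k' → ℤ)) : Ind B ⊕ Ind B' → ℤ
  | Sum.inl r => ux O B p.1 (some r)
  | Sum.inr r => ux O' B' p.2 (some r)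

theorem u2_ww (O : Outer m) (B : Boxes m k) (O' : Outer m') (B' : Boxes m' k') 
    (p : (Fin k → ℤ) × (Fin k' → ℤ)) (i : Ind B ⊕ Ind B') : 
    ww O B O' B' i p = 2 * u2 O B O' B' p i := by
  rcases i with r | r
  · exact ux_wt O B p.1 (some r)
  · exact ux_wt O' B' p.2 (some r)

theorem coin_structure (hm : 0 < m) (hm' : 0 < m') (O : Outer m) (B : Boxes m k) (O' : Outer m') 
    (B' : Boxes m' k') :
    ∃ F : Finset (((Fin k → ℤ) × (Fin k' → ℤ)) × Finset ((Ind B ⊕ Ind B') × (Ind B ⊕ Ind B'))), 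
      {p : (Fin k → ℤ) × (Fin k' → ℤ) | (family O B p.1).fPoly = (family O' B' p.2).fPoly} = 
        ⋃ x ∈ F, {p | p - x.1 ∈ Lam2 O B O' B' x.2} := by
  classical
  have hform : ∀ N : {N : ℕ // 3 ≤ N}, ∃ C : Ind B → ℂ, ∀ a : Fin k → ℤ, 
      ev N.1 N.2 (family O B a).fPoly = 
      ∑ r : Ind B, C r * (xr N.1 : ℂ) ^ (∑ e, kp O B e (r e) * a e) := fun N => formula hm O B N.1 N.2
  have hform' : ∀ N : {N : ℕ // 3 ≤ N}, ∃ C : Ind B' → ℂ, ∀ a : Fin k' → ℤ, 
      ev N.1 N.2 (family O' B' a).fPoly = 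
      ∑ r : Ind B', C r * (xr N.1 : ℂ) ^ (∑ e, kp O' B' e (r e) * a e) := 
    fun N => formula hm' O' B' N.1 N.2
  choose C hC using hform
  choose C' hC' using hform'
  obtain ⟨F, _, hF⟩ := exp_structure (ι := Ind B ⊕ Ind B') (ν := {N : ℕ // 3 ≤ N}) 
    (fun N => xr N.1) (fun N => xr_gt N.1 N.2) _ Finset.univ 
    (fun N i => Sum.elim (C N) (fun r => - C' N r) i) rfl
  have h1 : ∀ p : (Fin k → ℤ) × (Fin k' → ℤ), 
      (family O B p.1).fPoly = (family O' B' p.2).fPoly ↔ 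
      ∃ E ∈ F, ∀ q ∈ E, u2 O B O' B' p q.1 = u2 O B O' B' p q.2.1 + q.2.2 := by
    intro p
    rw [← hF]
    have h2 : ∀ N : {N : ℕ // 3 ≤ N}, (∑ i : Ind B ⊕ Ind B', 
        (Sum.elim (C N) (fun r => - C' N r) i : ℂ) * (xr N.1 : ℂ) ^ u2 O B O' B' p i) = 
        ev N.1 N.2 (family O B p.1).fPoly - ev N.1 N.2 (family O' B' p.2).fPoly := by
      intro N
      rw [Fintype.sum_sum_type, hC N p.1, hC' N p.2, sub_eq_add_neg, ← Finset.sum_neg_distrib]
      congr 1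
      refine Finset.sum_congr rfl fun r _ => ?_
      simp only [Sum.elim_inr, u2, ux]
      ring
    constructor
    · intro h N
      rw [h2 N, h, sub_self]
    · intro h
      apply ev_inj
      intro N hN
      have := h ⟨N, hN⟩
      rw [h2 ⟨N, hN⟩] at this
      exact sub_eq_zero.1 this
  -- cosets
  let Hs : Finset ((Ind B ⊕ Ind B') × (Ind B ⊕ Ind B') × ℤ) → Set ((Fin k → ℤ) × (Fin k' → ℤ)) := 
    fun E => {p | ∀ q ∈ E, u2 O B O' B' p q.1 = u2 O B O' B' p q.2.1 + q.2.2}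
  let base : Finset ((Ind B ⊕ Ind B') × (Ind B ⊕ Ind B') × ℤ) → ((Fin k → ℤ) × (Fin k' → ℤ)) := 
    fun E => if h : (Hs E).Nonempty then h.some else 0
  refine ⟨(F.filter (fun E => (Hs E).Nonempty)).image (fun E => 
    (base E, E.image (fun q => (q.1, q.2.1)))), ?_⟩
  ext p
  simp only [Set.mem_ofPred_eq, Set.mem_iUnion, exists_prop]
  rw [h1]
  have hcos : ∀ E, (Hs E).Nonempty → ((∀ q ∈ E, u2 O B O' B' p q.1 = u2 O B O' B' p q.2.1 + q.2.2) ↔ 
      p - base E ∈ Lam2 O B O' B' (E.image (fun q => (q.1, q.2.1)))) := by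
    intro E hE
    have hb : base E ∈ Hs E := by
      have : base E = hE.some := dif_pos hE
      rw [this]
      exact hE.some_mem
    constructor
    · intro h q hq
      obtain ⟨q', hq', rfl⟩ := Finset.mem_image.1 hq
      have h3 := h q' hq'
      have h4 := hb q' hq'
      rw [ww_sub, ww_sub, u2_ww, u2_ww, u2_ww, u2_ww]
      dsimp only
      linarith
    · intro h q hq
      have h3 := h _ (Finset.mem_image_of_mem _ hq)
      have h4 := hb q hq
      rw [ww_sub, ww_sub, u2_ww, u2_ww, u2_ww, u2_ww] at h3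
      dsimp only at h3
      linarith
  constructor
  · rintro ⟨E, hE, hE'⟩
    have hne : (Hs E).Nonempty := ⟨p, hE'⟩
    exact ⟨_, Finset.mem_image_of_mem _ (Finset.mem_filter.2 ⟨hE, hne⟩), (hcos E hne).1 hE'⟩
  · rintro ⟨x, hx, hx'⟩
    obtain ⟨E, hE, rfl⟩ := Finset.mem_image.1 hx
    have hE2 := Finset.mem_filter.1 hE
    exact ⟨E, hE2.1, (hcos E hE2.2).2 hx'⟩

end Pool.Agent.H297.FT
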