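import Mathlib

set_option autoImplicit false

namespace Pool.Agent.H297.FT

open Finset

/-! ### a zero-one law for sets that are closed along lines -/

/-- every line parallel to an axis that meets `S` in more than `h e` points lies in `S` -/
def LineClosed {k : ℕ} (h : Fin k → ℕ) (S : Set (Fin k → ℤ)) : Prop :=
  ∀ (e : Fin k) (a : Fin k → ℤ) (T : Finset ℤ), (∀ t ∈ T, Function.update a e t ∈ S) →
    h e < T.card → ∀ t, Function.update a e t ∈ S

theorem zero_one_aux : ∀ (k : ℕ) (h : Fin k → ℕ) (S : Set (Fin k → ℤ)), LineClosed h S →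
    (∀ a, a ∈ S) ∨ ∀ (A : Fin k → Finset ℤ) (U : Finset (Fin k → ℤ)),
      (∀ a ∈ U, a ∈ S ∧ ∀ e, a e ∈ A e) →
      U.card ≤ ∑ e, h e * ∏ e', if e' = e then 1 else (A e').card := by
  intro k
  induction k with
  | zero =>
    intro h S _
    by_cases h0 : ∀ a, a ∈ S
    · exact Or.inl h0
    · right
      intro A U hU
      push Not at h0
      obtain ⟨a, ha⟩ := h0
      have : U = ∅ := by
        rw [Finset.eq_empty_iff_forall_notMem]
        intro b hb
        have : b = a := Subsingleton.elim _ _
        exact ha (this ▸ (hU b hb).1)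
      simp [this]
  | succ k ih =>
    intro h S hS
    let S' : Set (Fin k → ℤ) := {a | ∀ t, (Fin.cons t a : Fin (k+1) → ℤ) ∈ S}
    have hS' : LineClosed (fun e => h e.succ) S' := by
      intro e a T hT hc t t0
      have h1 := hS e.succ (Fin.cons t0 a) T (fun s hs => by
        rw [← Fin.cons_update]
        exact hT s hs t0) hc t
      rw [← Fin.cons_update] at h1
      exact h1
    rcases ih _ S' hS' with h1 | h1
    · left
      intro a
      have := h1 (Fin.tail a) (a 0)
      rwa [Fin.cons_self_tail] at this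
    · right
      intro A U hU
      classical
      -- split according to the tail
      let V := U.image (Fin.tail : (Fin (k+1) → ℤ) → (Fin k → ℤ))
      have hV : ∀ v ∈ V, ∀ e, v e ∈ A e.succ := by
        intro v hv e
        obtain ⟨u, hu, rfl⟩ := Finset.mem_image.1 hv
        exact (hU u hu).2 e.succ
      have hVc : V.card ≤ ∏ e : Fin k, (A e.succ).card := by
        rw [← Fintype.card_piFinset]
        apply Finset.card_le_card
        intro v hv
        rw [Fintype.mem_piFinset]
        exact hV v hv
      have hVS := h1 (fun e => A e.succ) (V.filter (fun v => v ∈ S')) (by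
        intro v hv
        rw [Finset.mem_filter] at hv
        exact ⟨hv.2, hV v hv.1⟩)
      have hfib1 : ∀ v ∈ V.filter (fun v => v ∈ S'), 
          (U.filter (fun u => Fin.tail u = v)).card ≤ (A 0).card := by
        intro v _
        apply Finset.card_le_card_of_injOn (fun u => u 0)
        · intro u hu
          have hu' := Finset.mem_filter.1 (Finset.mem_coe.1 hu)
          exact (hU u hu'.1).2 0
        · intro u hu u' hu' huu
          have h2 := (Finset.mem_filter.1 (Finset.mem_coe.1 hu)).2
          have h3 := (Finset.mem_filter.1 (Finset.mem_coe.1 hu')).2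
          rw [← Fin.cons_self_tail u, ← Fin.cons_self_tail u', h2, h3]
          have : u 0 = u' 0 := huu
          rw [this]
      have hfib2 : ∀ v ∈ V.filter (fun v => v ∉ S'), 
          (U.filter (fun u => Fin.tail u = v)).card ≤ h 0 := by
        intro v hv
        by_contra hcon
        push Not at hcon
        have hv2 := (Finset.mem_filter.1 hv).2
        apply hv2
        intro t
        have hinj : Set.InjOn (fun u : Fin (k+1) → ℤ => u 0) 
            (U.filter (fun u => Fin.tail u = v) : Finset (Fin (k+1) → ℤ)) := by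
          intro u hu u' hu' huu
          have h2 := (Finset.mem_filter.1 (Finset.mem_coe.1 hu)).2
          have h3 := (Finset.mem_filter.1 (Finset.mem_coe.1 hu')).2
          rw [← Fin.cons_self_tail u, ← Fin.cons_self_tail u', h2, h3]
          have : u 0 = u' 0 := huu
          rw [this]
        have h4 := hS 0 (Fin.cons 0 v) ((U.filter (fun u => Fin.tail u = v)).image (fun u => u 0))
          (by
            intro s hs
            obtain ⟨u, hu, rfl⟩ := Finset.mem_image.1 hs
            have hu' := Finset.mem_filter.1 hu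
            rw [Fin.update_cons_zero, ← hu'.2, Fin.cons_self_tail]
            exact (hU u hu'.1).1)
          (by rw [Finset.card_image_of_injOn hinj]; exact hcon) t
        rw [Fin.update_cons_zero] at h4
        exact h4
      have hcard : U.card = ∑ v ∈ V, (U.filter (fun u => Fin.tail u = v)).card :=
        Finset.card_eq_sum_card_image _ _
      rw [← Finset.sum_filter_add_sum_filter_not V (fun v => v ∈ S')] at hcard
      have h5 := Finset.sum_le_card_nsmul _ _ _ hfib1
      have h6 := Finset.sum_le_card_nsmul _ _ _ hfib2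
      rw [smul_eq_mul] at h5 h6
      have h7 : (V.filter (fun v => v ∉ S')).card ≤ ∏ e : Fin k, (A e.succ).card :=
        le_trans (Finset.card_le_card (Finset.filter_subset _ _)) hVc
      rw [Fin.sum_univ_succ]
      have e1 : (∏ e' : Fin (k+1), if e' = 0 then 1 else (A e').card) = 
          ∏ e : Fin k, (A e.succ).card := by
        rw [Fin.prod_univ_succ]
        simp
      have e2 : ∀ e : Fin k, (∏ e' : Fin (k+1), if e' = e.succ then 1 else (A e').card) = 
          (A 0).card * ∏ e' : Fin k, if e' = e then 1 else (A e'.succ).card := by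
        intro e
        rw [Fin.prod_univ_succ]
        rw [if_neg (Fin.succ_ne_zero e).symm]
        congr 1
        refine Finset.prod_congr rfl fun e' _ => ?_
        simp [Fin.succ_inj]
      rw [e1]
      simp only [e2]
      have e3 : (∑ e : Fin k, h e.succ * ((A 0).card * ∏ e' : Fin k, if e' = e then 1 else (A e'.succ).card)) = 
          (∑ e : Fin k, h e.succ * (∏ e' : Fin k, if e' = e then 1 else (A e'.succ).card)) * (A 0).card := by
        rw [Finset.sum_mul]
        refine Finset.sum_congr rfl fun e _ => ?_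
        ring
      rw [e3, hcard]
      calc _ ≤ (V.filter (fun v => v ∈ S')).card * (A 0).card + (V.filter (fun v => v ∉ S')).card * h 0 :=
            Nat.add_le_add h5 h6
        _ ≤ (∑ e : Fin k, h e.succ * (∏ e' : Fin k, if e' = e then 1 else (A e'.succ).card)) * (A 0).card + 
            (∏ e : Fin k, (A e.succ).card) * h 0 :=
            Nat.add_le_add (Nat.mul_le_mul_right _ hVS) (Nat.mul_le_mul_right _ h7)
        _ = _ := by ring

theorem zero_one {k : ℕ} (h : Fin k → ℕ) (S : Set (Fin k → ℤ)) (hS : LineClosed h S) :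
    (∀ a, a ∈ S) ∨ ∀ (A : Fin k → Finset ℤ) (U : Finset (Fin k → ℤ)),
      (∀ a ∈ U, a ∈ S ∧ ∀ e, a e ∈ A e) →
      U.card ≤ ∑ e, h e * ∏ e' ∈ Finset.univ.erase e, (A e').card := by
  rcases zero_one_aux k h S hS with h1 | h1
  · exact Or.inl h1
  · right
    intro A U hU
    refine le_trans (h1 A U hU) (le_of_eq ?_)
    refine Finset.sum_congr rfl fun e _ => ?_
    congr 1
    rw [← Finset.mul_prod_erase Finset.univ _ (Finset.mem_univ e), if_pos rfl, one_mul]
    refine Finset.prod_congr rfl fun e' he' => ?_
    rw [if_neg (Finset.ne_of_mem_erase he')]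

/-! ### exponential equations -/

/-- The integer vectors `u` with `∑ i ∈ s, C n i * x n ^ u i = 0` for all `n` form a finite union
of sets given by equations `u i = u j + d`. -/
theorem exp_structure {ι ν : Type*} [DecidableEq ι] (x : ν → ℝ) (hx : ∀ n, 1 < x n) : 
    ∀ (c : ℕ) (s : Finset ι) (C : ν → ι → ℂ), s.card = c → 
    ∃ F : Finset (Finset (ι × ι × ℤ)), (∀ E ∈ F, ∀ q ∈ E, q.1 ∈ s ∧ q.2.1 ∈ s) ∧
      ∀ u : ι → ℤ, (∀ n, ∑ i ∈ s, C n i * (x n : ℂ) ^ u i = 0) ↔ 
        ∃ E ∈ F, ∀ q ∈ E, u q.1 = u q.2.1 + q.2.2 := by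
  intro c
  induction c with
  | zero =>
    intro s C hs
    rw [Finset.card_eq_zero] at hs
    subst hs
    exact ⟨{∅}, by simp, by simp⟩
  | succ c ih =>
    intro s C hs
    by_cases hall : ∀ n, ∀ i ∈ s, C n i = 0
    · refine ⟨{∅}, by simp, ?_⟩
      intro u
      simp only [Finset.mem_singleton, exists_eq_left, Finset.notMem_empty, false_implies, 
        implies_true, iff_true]
      intro n
      exact Finset.sum_eq_zero (fun i hi => by rw [hall n i hi, zero_mul])
    · push Not at hall
      obtain ⟨n₀, i₀, hi₀, hC₀⟩ := hall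
      classical
      -- a bound for the gap
      let M : ℝ := ∑ i ∈ s, ‖C n₀ i‖
      have hgap : ∀ i ∈ s, C n₀ i ≠ 0 → ∃ L : ℕ, M < ‖C n₀ i‖ * (x n₀) ^ L := by
        intro i _ hi
        have h1 : 0 < ‖C n₀ i‖ := norm_pos_iff.2 hi
        obtain ⟨L, hL⟩ := pow_unbounded_of_one_lt (M / ‖C n₀ i‖) (hx n₀)
        refine ⟨L, ?_⟩
        rw [div_lt_iff₀ h1] at hL
        rw [mul_comm]
        exact hL
      obtain ⟨L, hL⟩ : ∃ L : ℕ, ∀ i ∈ s, C n₀ i ≠ 0 → M < ‖C n₀ i‖ * (x n₀) ^ L := by
        have h2 : ∀ i : ι, ∃ L : ℕ, i ∈ s → C n₀ i ≠ 0 → M < ‖C n₀ i‖ * (x n₀) ^ L := by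
          intro i
          by_cases hi : i ∈ s ∧ C n₀ i ≠ 0
          · obtain ⟨L, hL⟩ := hgap i hi.1 hi.2
            exact ⟨L, fun _ _ => hL⟩
          · exact ⟨0, fun h3 h4 => absurd ⟨h3, h4⟩ hi⟩
        choose Lf hLf using h2
        refine ⟨s.sup Lf, fun i hi hi' => lt_of_lt_of_le (hLf i hi hi') ?_⟩
        apply mul_le_mul_of_nonneg_left _ (norm_nonneg _)
        exact pow_le_pow_right₀ (hx n₀).le (Finset.le_sup hi)
      -- merging
      have hmerge : ∀ p : ι × ι × ℕ, ∃ F : Finset (Finset (ι × ι × ℤ)), 
          (∀ E ∈ F, ∀ q ∈ E, q.1 ∈ s ∧ q.2.1 ∈ s) ∧ 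
          (p.1 ∈ s → p.2.1 ∈ s → p.1 ≠ p.2.1 → ∀ u : ι → ℤ, 
            ((∀ n, ∑ i ∈ s, C n i * (x n : ℂ) ^ u i = 0) ∧ u p.1 = u p.2.1 + p.2.2) ↔ 
              ∃ E ∈ F, ∀ q ∈ E, u q.1 = u q.2.1 + q.2.2) := by
        rintro ⟨i, j, d⟩
        by_cases hij : i ∈ s ∧ j ∈ s ∧ i ≠ j
        · obtain ⟨hi, hj, hne⟩ := hij
          obtain ⟨F, hF1, hF2⟩ := ih (s.erase i) 
            (fun n l => if l = j then C n j + C n i * (x n : ℂ) ^ (d : ℤ) else C n l) 
            (by rw [Finset.card_erase_of_mem hi, hs]; rfl)
          refine ⟨F.image (fun E => insert (i, j, (d : ℤ)) E), ?_, ?_⟩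
          · intro E hE q hq
            obtain ⟨E', hE', rfl⟩ := Finset.mem_image.1 hE
            rcases Finset.mem_insert.1 hq with rfl | hq
            · exact ⟨hi, hj⟩
            · have := hF1 E' hE' q hq
              exact ⟨Finset.mem_of_mem_erase this.1, Finset.mem_of_mem_erase this.2⟩
          · intro _ _ _ u
            have key : u i = u j + d → ((∀ n, ∑ i ∈ s, C n i * (x n : ℂ) ^ u i = 0) ↔ 
                (∀ n, ∑ l ∈ s.erase i, 
                  (if l = j then C n j + C n i * (x n : ℂ) ^ (d : ℤ) else C n l) * 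
                    (x n : ℂ) ^ u l = 0)) := by
              intro hu
              apply forall_congr'
              intro n
              have hxn : (x n : ℂ) ≠ 0 := by
                rw [Complex.ofReal_ne_zero]; linarith [hx n]
              have hj' : j ∈ s.erase i := Finset.mem_erase.2 ⟨hne.symm, hj⟩
              rw [← Finset.add_sum_erase s _ hi, ← Finset.add_sum_erase (s.erase i) _ hj',
                ← Finset.add_sum_erase (s.erase i) _ hj', if_pos rfl, hu, zpow_add₀ hxn]
              have h3 : ∑ l ∈ (s.erase i).erase j, 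
                  (if l = j then C n j + C n i * (x n : ℂ) ^ (d : ℤ) else C n l) * 
                    (x n : ℂ) ^ u l = ∑ l ∈ (s.erase i).erase j, C n l * (x n : ℂ) ^ u l := by
                refine Finset.sum_congr rfl fun l hl => ?_
                rw [if_neg (Finset.ne_of_mem_erase hl)]
              rw [h3]
              have h4 : C n i * ((x n : ℂ) ^ u j * (x n : ℂ) ^ (d : ℤ)) + 
                  (C n j * (x n : ℂ) ^ u j + ∑ l ∈ (s.erase i).erase j, C n l * (x n : ℂ) ^ u l) = 
                  (C n j + C n i * (x n : ℂ) ^ (d : ℤ)) * (x n : ℂ) ^ u j + 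
                  ∑ l ∈ (s.erase i).erase j, C n l * (x n : ℂ) ^ u l := by ring
              rw [h4]
            constructor
            · rintro ⟨h1, h2⟩
              obtain ⟨E, hE, hE'⟩ := (hF2 u).1 ((key h2).1 h1)
              refine ⟨_, Finset.mem_image_of_mem _ hE, ?_⟩
              intro q hq
              rcases Finset.mem_insert.1 hq with rfl | hq
              · exact h2
              · exact hE' q hq
            · rintro ⟨E, hE, hE'⟩
              obtain ⟨E', hE'', rfl⟩ := Finset.mem_image.1 hE
              have h2 : u i = u j + d := hE' (i, j, (d : ℤ)) (Finset.mem_insert_self _ _)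
              refine ⟨(key h2).2 ((hF2 u).2 ⟨E', hE'', fun q hq => hE' q (Finset.mem_insert_of_mem hq)⟩), h2⟩
        · refine ⟨∅, by simp, ?_⟩
          intro h1 h2 h3
          exact absurd ⟨h1, h2, h3⟩ hij
      choose Fm hFm1 hFm2 using hmerge
      refine ⟨((s ×ˢ s ×ˢ Finset.range (L + 1)).filter (fun p => p.1 ≠ p.2.1)).biUnion Fm, ?_, ?_⟩
      · intro E hE
        obtain ⟨p, _, hp⟩ := Finset.mem_biUnion.1 hE
        exact hFm1 p E hp
      · intro u
        constructor
        · intro hu
          -- top index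
          have hne : (s.filter (fun i => C n₀ i ≠ 0)).Nonempty := ⟨i₀, Finset.mem_filter.2 ⟨hi₀, hC₀⟩⟩
          obtain ⟨i, hi, hmax⟩ := Finset.exists_max_image (s.filter (fun i => C n₀ i ≠ 0)) u hne
          have hi' := Finset.mem_filter.1 hi
          -- some other index is close
          have hclose : ∃ j ∈ s, C n₀ j ≠ 0 ∧ j ≠ i ∧ u i - L ≤ u j := by
            by_contra hcon
            push Not at hcon
            have h1 := hu n₀
            rw [← Finset.add_sum_erase s _ hi'.1] at h1
            have h2 : ‖C n₀ i * (x n₀ : ℂ) ^ u i‖ = 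
                ‖∑ j ∈ s.erase i, C n₀ j * (x n₀ : ℂ) ^ u j‖ := by
              rw [← norm_neg (∑ j ∈ s.erase i, C n₀ j * (x n₀ : ℂ) ^ u j)]
              congr 1
              exact eq_neg_of_add_eq_zero_left h1
            have hx0 : 0 < x n₀ := by linarith [hx n₀]
            have hnorm : ∀ z : ℤ, ‖(x n₀ : ℂ) ^ z‖ = (x n₀) ^ z := by
              intro z
              rw [norm_zpow, Complex.norm_real, Real.norm_of_nonneg hx0.le]
            have h3 : ‖∑ j ∈ s.erase i, C n₀ j * (x n₀ : ℂ) ^ u j‖ ≤ 
                ∑ j ∈ s.erase i, ‖C n₀ j‖ * (x n₀) ^ (u i - L) := by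
              refine le_trans (norm_sum_le _ _) (Finset.sum_le_sum fun j hj => ?_)
              rw [norm_mul, hnorm]
              by_cases hj0 : C n₀ j = 0
              · rw [hj0]; simp
              · apply mul_le_mul_of_nonneg_left _ (norm_nonneg _)
                have := hcon j (Finset.mem_of_mem_erase hj) hj0 (Finset.ne_of_mem_erase hj)
                exact zpow_le_zpow_right₀ (hx n₀).le (by omega)
            rw [← Finset.sum_mul] at h3
            have h4 : ∑ j ∈ s.erase i, ‖C n₀ j‖ ≤ M :=
              Finset.sum_le_sum_of_subset_of_nonneg (Finset.erase_subset _ _) 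
                (fun j _ _ => norm_nonneg _)
            have h5 : 0 < (x n₀) ^ (u i - L) := zpow_pos hx0 _
            have h6 : ‖C n₀ i * (x n₀ : ℂ) ^ u i‖ ≤ M * (x n₀) ^ (u i - L) := by
              rw [h2]
              exact le_trans h3 (mul_le_mul_of_nonneg_right h4 h5.le)
            rw [norm_mul, hnorm] at h6
            have h7 : (x n₀) ^ u i = (x n₀) ^ L * (x n₀) ^ (u i - L) := by
              rw [← zpow_natCast, ← zpow_add₀ hx0.ne']
              congr 1
              ring
            rw [h7, ← mul_assoc] at h6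
            have h8 := hL i hi'.1 hi'.2
            exact absurd (le_of_mul_le_mul_right h6 h5) (not_le.2 h8)
          obtain ⟨j, hj, hj0, hji, hjL⟩ := hclose
          have hji' := hmax j (Finset.mem_filter.2 ⟨hj, hj0⟩)
          obtain ⟨d, hd⟩ : ∃ d : ℕ, u i = u j + d := ⟨(u i - u j).toNat, by omega⟩
          have hdL : d < L + 1 := by omega
          have hmem : (i, j, d) ∈ (s ×ˢ s ×ˢ Finset.range (L + 1)).filter (fun p => p.1 ≠ p.2.1) := by
            simp only [Finset.mem_filter, Finset.mem_product, Finset.mem_range]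
            exact ⟨⟨hi'.1, hj, hdL⟩, hji.symm⟩
          obtain ⟨E, hE, hE'⟩ := (hFm2 (i, j, d) hi'.1 hj hji.symm u).1 ⟨hu, hd⟩
          exact ⟨E, Finset.mem_biUnion.2 ⟨_, hmem, hE⟩, hE'⟩
        · rintro ⟨E, hE, hE'⟩
          obtain ⟨p, hp, hpE⟩ := Finset.mem_biUnion.1 hE
          simp only [Finset.mem_filter, Finset.mem_product, Finset.mem_range] at hp
          exact ((hFm2 p hp.1.1 hp.1.2.1 hp.2 u).2 ⟨E, hpE, hE'⟩).1

end Pool.Agent.H297.FT
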