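import Pool.Agent.H891R2.Jones.Diagram

/-!
# Families with several boxes of full twists

`Outer m`, `Outer.pushList`, `twistWord`, `Outer.close`, `Diagram` are the definitions of the starting
library `Pool.Agent.H891R2.Jones.Diagram`.
-/

set_option autoImplicit false

namespace Pool.Agent.H297.FT

open Finset Pool.Agent.H891R2.Jones

variable {m k : ℕ}

/-- draw `a` full twists (`|a|` left-handed full twists for `a < 0`) on the `n` strands
`off, …, off + n - 1` at the lower side of the open part of the box -/
def box (O : Outer m) (off n : ℕ) : ℤ → Outer m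
  | Int.ofNat t => (fun O : Outer m => O.pushList true (twistWord n off))^[t] O
  | Int.negSucc t => (fun O : Outer m => O.pushList false (twistWord n off).reverse)^[t+1] O

/-- the number of strands among `off, …, off + n - 1` directed upwards minus the number of those
directed downwards -/
def lk (O : Outer m) (off n : ℕ) : ℤ :=
  ∑ j : Fin m, if off ≤ (j : ℕ) ∧ (j : ℕ) < off + n then (if O.up j then 1 else -1) else 0

/-- the offset and the number of strands of each box -/
structure Boxes (m k : ℕ) where
  off : Fin k → ℕ
  size : Fin k → ℕ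
  le : ∀ e, off e + size e ≤ m

/-- `a e` full twists in the box `e`, for `e` in the list -/
def fillL (B : Boxes m k) (a : Fin k → ℤ) (l : List (Fin k)) (O : Outer m) : Outer m :=
  l.foldl (fun O e => box O (B.off e) (B.size e) (a e)) O

/-- `a e` full twists in the box `e`, for all `e`, one box above the other -/
def fill (O : Outer m) (B : Boxes m k) (a : Fin k → ℤ) : Outer m := fillL B a (List.finRange k) O

/-- the closed diagram with `a e` full twists in the box `e` -/
def family (O : Outer m) (B : Boxes m k) (a : Fin k → ℤ) : Diagram (fill O B a).P :=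
  (fill O B a).close

/-- the index set of the exponents -/
abbrev Ind (B : Boxes m k) : Type := (e : Fin k) → Fin (B.size e / 2 + 1)

/-- the linear forms `w_s(a) = ∑ e, (s_e (s_e + 2) - 3 ℓ_e²) a_e` with `s_e = n_e - 2 r_e`, 
and `w_∞ = 0` -/
def wt (O : Outer m) (B : Boxes m k) : Option (Ind B) → (Fin k → ℤ) → ℤ
  | none, _ => 0
  | some r, a => ∑ e, (((B.size e - 2 * (r e : ℕ) : ℕ) : ℤ) * ((B.size e - 2 * (r e : ℕ) : ℕ) + 2) - 
      3 * (lk O (B.off e) (B.size e)) ^ 2) * a e

/-- the number of the distinct nonzero values among the `w_s(v)` -/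
def mNum (O : Outer m) (B : Boxes m k) (v : Fin k → ℤ) : ℕ :=
  ((Finset.univ.image (fun r : Ind B => wt O B (some r) v)).erase 0).card

theorem wt_sub (O : Outer m) (B : Boxes m k) (i : Option (Ind B)) (a b : Fin k → ℤ) :
    wt O B i (a - b) = wt O B i a - wt O B i b := by
  rcases i with _ | r
  · simp [wt]
  · simp only [wt, ← Finset.sum_sub_distrib, Pi.sub_apply]
    refine Finset.sum_congr rfl fun e _ => ?_
    ring

/-- the subgroup of the `a` with `w_s(a) = w_t(a)` for all `(s, t) ∈ E` -/
def Lam (O : Outer m) (B : Boxes m k) (E : Finset (Option (Ind B) × Option (Ind B))) : 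
    AddSubgroup (Fin k → ℤ) where
  carrier := {a | ∀ q ∈ E, wt O B q.1 a = wt O B q.2 a}
  zero_mem' := by
    intro q _
    have h : ∀ i, wt O B i 0 = 0 := by
      intro i
      rcases i with _ | r <;> simp [wt]
    rw [h, h]
  add_mem' := by
    intro a b ha hb q hq
    have h1 := ha q hq
    have h2 := hb q hq
    have h : ∀ i, wt O B i (a + b) = wt O B i a + wt O B i b := by
      intro i
      have := wt_sub O B i (a + b) b
      rw [add_sub_cancel_right] at this
      omega
    rw [h, h, h1, h2]
  neg_mem' := by
    intro a ha q hq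
    have h1 := ha q hq
    have h0 : ∀ i, wt O B i 0 = 0 := by
      intro i
      rcases i with _ | r <;> simp [wt]
    have h : ∀ i, wt O B i (-a) = - wt O B i a := by
      intro i
      have := wt_sub O B i 0 a
      rw [zero_sub, h0] at this
      omega
    rw [h, h, h1]

/-- `3 ℓ² + 1 = (s + 1)²` for some `0 ≤ s ≤ n` -/
def Exceptional (n : ℕ) (l : ℤ) : Prop := ∃ s : ℕ, s ≤ n ∧ (s : ℤ) * (s + 2) = 3 * l ^ 2

open Classical in
/-- the number of the nonzero numbers among `s (s + 2) - 3 ℓ²`, `s = n, n - 2, …` -/
noncomputable def hNum (n : ℕ) (l : ℤ) : ℕ := n / 2 + (if Exceptional n l then 0 else 1)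

end Pool.Agent.H297.FT
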