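import Pool.Agent.H297.FT.Box

set_option autoImplicit false

namespace Pool.Agent.H297.FT

open Finset Pool.Agent.H891R2.Jones

section eig

variable {K R : Type*} [Field K] [Ring R] [Algebra K R]

open Polynomial in
/-- powers of a unit annihilated by a polynomial with simple nonzero roots -/
theorem unit_zpow_decomp {ι : Type*} [DecidableEq ι] (s : Finset ι) (hs : s.Nonempty) (v : ι → K)
    (hv : Set.InjOn v s) (hv0 : ∀ i ∈ s, v i ≠ 0) (F : Rˣ)
    (hF : aeval (F : R) (∏ i ∈ s, (X - C (v i))) = 0) :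
    ∃ P : ι → R, ∀ a : ℤ, ((F ^ a : Rˣ) : R) = ∑ i ∈ s, (v i ^ a) • P i := by
  let P : ι → R := fun i => aeval (F : R) (Lagrange.basis s v i)
  have hsum : ∑ i ∈ s, P i = 1 := by
    simp only [P]
    rw [← map_sum, Lagrange.sum_basis hv hs, map_one]
  have hmul : ∀ i ∈ s, (F : R) * P i = v i • P i := by
    intro i hi
    have h1 : (X - C (v i)) * Lagrange.basis s v i = 
        C (∏ j ∈ s.erase i, (v i - v j)⁻¹) * ∏ j ∈ s, (X - C (v j)) := by
      rw [Lagrange.basis, ← Finset.mul_prod_erase s _ hi, map_prod]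
      have : ∀ j ∈ s.erase i, Lagrange.basisDivisor (v i) (v j) = C ((v i - v j)⁻¹) * (X - C (v j)) := by
        intro j _; rfl
      rw [Finset.prod_congr rfl this, Finset.prod_mul_distrib]
      ring
    have h2 := congrArg (aeval (F : R)) h1
    rw [map_mul, map_mul, hF, mul_zero, map_sub, aeval_X, aeval_C, sub_mul, sub_eq_zero] at h2
    rw [Algebra.smul_def]
    exact h2
  have hinv : ∀ i ∈ s, ((F⁻¹ : Rˣ) : R) * P i = (v i)⁻¹ • P i := by
    intro i hi
    have h1 := hmul i hi
    have h2 : ((F⁻¹ : Rˣ) : R) * ((F : R) * P i) = P i := by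
      rw [← mul_assoc, Units.inv_mul, one_mul]
    rw [h1, mul_smul_comm] at h2
    calc ((F⁻¹ : Rˣ) : R) * P i = (v i)⁻¹ • (v i • (((F⁻¹ : Rˣ) : R) * P i)) := by
          rw [smul_smul, inv_mul_cancel₀ (hv0 i hi), one_smul]
      _ = _ := by rw [h2]
  have hpow : ∀ i ∈ s, ∀ n : ℕ, ((F ^ n : Rˣ) : R) * P i = v i ^ n • P i := by
    intro i hi n
    induction n with
    | zero => simp
    | succ n ih =>
      rw [pow_succ, Units.val_mul, mul_assoc, hmul i hi, mul_smul_comm, ih, smul_smul, pow_succ']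
  have hpow' : ∀ i ∈ s, ∀ n : ℕ, (((F⁻¹) ^ n : Rˣ) : R) * P i = (v i)⁻¹ ^ n • P i := by
    intro i hi n
    induction n with
    | zero => simp
    | succ n ih =>
      rw [pow_succ, Units.val_mul, mul_assoc, hinv i hi, mul_smul_comm, ih, smul_smul, pow_succ']
  have hz : ∀ i ∈ s, ∀ a : ℤ, ((F ^ a : Rˣ) : R) * P i = v i ^ a • P i := by
    intro i hi a
    rcases a with n | n
    · simpa using hpow i hi n
    · have := hpow' i hi (n+1)
      rw [inv_pow] at this
      simpa [zpow_negSucc] using this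
  refine ⟨P, fun a => ?_⟩
  calc ((F ^ a : Rˣ) : R) = ((F ^ a : Rˣ) : R) * ∑ i ∈ s, P i := by rw [hsum, mul_one]
    _ = ∑ i ∈ s, ((F ^ a : Rˣ) : R) * P i := by rw [Finset.mul_sum]
    _ = _ := Finset.sum_congr rfl fun i hi => hz i hi a

end eig

variable {m k : ℕ}

/-- half exponents -/
noncomputable def kp (O : Outer m) (B : Boxes m k) (e : Fin k) (j : ℕ) : ℤ :=
  kap (B.size e) (lk O (B.off e) (B.size e)) j

theorem formula (hm : 0 < m) (O : Outer m) (B : Boxes m k) (N : ℕ) (hN : 3 ≤ N) :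
    ∃ C : Ind B → ℂ, ∀ a : Fin k → ℤ, ev N hN (family O B a).fPoly = 
      ∑ r : Ind B, C r * (xr N : ℂ) ^ (∑ e, kp O B e (r e) * a e) := by
  have hA := Ar_ne N hN
  have hd := Ar_d N hN
  have hx := xr_gt N hN
  have hNC : (N : ℂ) ≠ 0 := by
    rw [Nat.cast_ne_zero]; omega
  set V := (Fin m → Fin N) → ((Fin m → Fin N) → ℂ) with hV
  let g0 : V := fun x y => ind (x = y)
  let L : Module.End ℂ V →ₗ[ℂ] ℂ := 
    { toFun := fun S => Zg (Ar N) N O (S g0)
      map_add' := by
        intro S S'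
        unfold Zg
        rw [← Finset.sum_add_distrib]
        refine Finset.sum_congr rfl fun u _ => ?_
        exact mul_add (WW (Ar N) O.arcs O.crossings u) (S g0 (u ∘ O.lower) (u ∘ O.upper))
          (S' g0 (u ∘ O.lower) (u ∘ O.upper))
      map_smul' := by
        intro r S
        unfold Zg
        simp only [RingHom.id_apply, smul_eq_mul]
        rw [Finset.mul_sum]
        refine Finset.sum_congr rfl fun u _ => ?_
        exact mul_left_comm (WW (Ar N) O.arcs O.crossings u) r (S g0 (u ∘ O.lower) (u ∘ O.upper)) }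
  have hdec : ∀ e : Fin k, ∃ P : Fin (B.size e / 2 + 1) → Module.End ℂ V, ∀ a : ℤ, 
      (((bUnit hA m N hd (B.off e) (B.size e) (B.le e)) ^ a : (Module.End ℂ V)ˣ) : Module.End ℂ V) = 
      ∑ i : Fin (B.size e / 2 + 1), (mu (Ar N) (B.size e) (B.size e - 2 * i) ^ a) • P i := by
    intro e
    have hpoly : Polynomial.aeval ((bUnit hA m N hd (B.off e) (B.size e) (B.le e) : (Module.End ℂ V)ˣ) : 
        Module.End ℂ V)
        (∏ j : Fin (B.size e / 2 + 1), (Polynomial.X - Polynomial.C 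
          (mu (Ar N) (B.size e) (B.size e - 2 * j)))) = 0 := by
      have := FF_poly hA hd (isTL_ee m N (W := (Fin m → Fin N) → ℂ)) (B.size e) (B.off e) (B.le e)
      unfold PP at this
      rw [Finset.prod_range] at this
      exact this
    exact unit_zpow_decomp Finset.univ ⟨0, Finset.mem_univ _⟩ _ (by
      intro i _ j _ hij
      have hi' := i.2
      have hj' := j.2
      have h1 := Ar_zpow_inj N hN hij
      have h3 : (((B.size e - 2 * (i : ℕ) : ℕ) : ℤ) + 1)^2 = (((B.size e - 2 * (j : ℕ) : ℕ) : ℤ) + 1)^2 := by 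
        linarith
      have h4 : ((B.size e - 2 * (i : ℕ) : ℕ) : ℤ) + 1 = ((B.size e - 2 * (j : ℕ) : ℕ) : ℤ) + 1 := by
        rw [sq_eq_sq₀ (by positivity) (by positivity)] at h3
        exact h3
      apply Fin.ext
      omega) (fun j _ => zpow_ne_zero _ hA) _ hpoly
  choose P hP using hdec
  have hdec2 : ∀ a : Fin k → ℤ, ((List.finRange k).map (fun e => ((bUnit hA m N hd (B.off e) (B.size e) (B.le e) ^ a e : 
      (Module.End ℂ V)ˣ) : Module.End ℂ V))).prod = 
      ∑ r : Ind B, (∏ e, mu (Ar N) (B.size e) (B.size e - 2 * (r e)) ^ a e) • 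
        (List.ofFn (fun e => P e (r e))).prod := by
    intro a
    have h1 : ((List.finRange k).map (fun e => ((bUnit hA m N hd (B.off e) (B.size e) (B.le e) ^ a e : 
      (Module.End ℂ V)ˣ) : Module.End ℂ V))).prod = 
      MultilinearMap.mkPiAlgebraFin ℂ k (Module.End ℂ V) (fun e => 
        ∑ i : Fin (B.size e / 2 + 1), (mu (Ar N) (B.size e) (B.size e - 2 * i) ^ a e) • P e i) := by
      rw [MultilinearMap.mkPiAlgebraFin_apply, List.ofFn_eq_map]
      congr 1
      exact List.map_congr_left (fun e _ => hP e (a e))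
    rw [h1, MultilinearMap.map_sum]
    refine Finset.sum_congr rfl fun r _ => ?_
    rw [MultilinearMap.map_smul_univ, MultilinearMap.mkPiAlgebraFin_apply]
  refine ⟨fun r => (ev N hN (if Even O.close.writhe then 1 else -1)) * 
    Ar N ^ (-3 * O.close.writhe) * L ((List.ofFn (fun e => P e (r e))).prod) / N, fun a => ?_⟩
  have h1 : (N : ℂ) * ev N hN (family O B a).bracket = 
      ∑ r : Ind B, (∏ e, mu (Ar N) (B.size e) (B.size e - 2 * (r e)) ^ a e) * 
        L ((List.ofFn (fun e => P e (r e))).prod) := by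
    have : Nonempty (fill O B a).P := ⟨(fill O B a).lower ⟨0, hm⟩⟩
    have h2 : ∑ r : Ind B, (∏ e, mu (Ar N) (B.size e) (B.size e - 2 * (r e)) ^ a e) * 
        L ((List.ofFn (fun e => P e (r e))).prod) = 
        L (∑ r : Ind B, (∏ e, mu (Ar N) (B.size e) (B.size e - 2 * (r e)) ^ a e) • 
        (List.ofFn (fun e => P e (r e))).prod) := by
      rw [map_sum]
      refine Finset.sum_congr rfl fun r _ => ?_
      rw [map_smul, smul_eq_mul]
    rw [ev_bracket N hN (family O B a), h2, ← hdec2 a]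
    unfold family
    rw [Z_close]
    unfold fill
    rw [Zg_fillL hA hd]
    rfl
  have h2 : ev N hN (family O B a).bracket = 
      (∑ r : Ind B, (∏ e, mu (Ar N) (B.size e) (B.size e - 2 * (r e)) ^ a e) * 
        L ((List.ofFn (fun e => P e (r e))).prod)) / N := by
    rw [← h1]; field_simp
  have hev : Even (∑ e, a e * ((lk O (B.off e) (B.size e)) ^ 2 - B.size e)) := by
    apply Finset.even_sum
    intro e _
    apply Even.mul_left
    have hpar := lk_parity O (B.le e)
    obtain ⟨t, ht⟩ : ∃ t : ℤ, lk O (B.off e) (B.size e) = B.size e + 2 * t := 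
      ⟨(lk O (B.off e) (B.size e) - B.size e)/2, by omega⟩
    rw [ht]
    have : ((B.size e : ℤ) + 2 * t)^2 - B.size e = (B.size e : ℤ) * ((B.size e : ℤ) - 1) + 
        2 * (2 * B.size e * t + 2 * t^2) := by ring
    rw [this]
    refine Even.add ?_ (even_two_mul _)
    exact Int.even_mul_pred_self (B.size e : ℤ)
  unfold Diagram.fPoly
  rw [map_mul, map_mul, h2, family_writhe, ev_T]
  have h3 : (Even (O.close.writhe + ∑ e, a e * ((lk O (B.off e) (B.size e)) ^ 2 - B.size e))) ↔ 
      Even O.close.writhe := by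
    rw [Int.even_add]
    simp [hev]
  have h3' : (if Even (O.close.writhe + ∑ e, a e * ((lk O (B.off e) (B.size e)) ^ 2 - B.size e)) then 
      (1 : LaurentPolynomial ℤ) else -1) = if Even O.close.writhe then 1 else -1 := by
    simp only [h3]
  rw [h3', Finset.sum_div, Finset.mul_sum]
  refine Finset.sum_congr rfl fun r _ => ?_
  have h4 : Ar N ^ (-3 * (O.close.writhe + ∑ e, a e * ((lk O (B.off e) (B.size e)) ^ 2 - B.size e))) * 
      (∏ e, mu (Ar N) (B.size e) (B.size e - 2 * (r e)) ^ a e) = 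
      Ar N ^ (-3 * O.close.writhe) * (xr N : ℂ) ^ (∑ e, kp O B e (r e) * a e) := by
    have hspec : ∀ e, ∃ t : ℤ, (((B.size e - 2 * (r e : ℕ) : ℕ) : ℤ) * ((B.size e - 2 * (r e : ℕ) : ℕ) + 2) - 
        3 * (lk O (B.off e) (B.size e)) ^ 2) = 4 * t ∧ kp O B e (r e) = 2 * t := fun e =>
      kap_spec (lk_parity O (B.le e)) (r e).2
    choose t ht ht' using hspec
    have e1 : (xr N : ℂ) ^ (∑ e, kp O B e (r e) * a e) = Ar N ^ (∑ e, 4 * t e * a e) := by
      have e2 : ∑ e, kp O B e (r e) * a e = 2 * ∑ e, t e * a e := by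
        rw [Finset.mul_sum]
        refine Finset.sum_congr rfl fun e _ => ?_
        rw [ht' e]; ring
      have e3 : ∑ e, 4 * t e * a e = 4 * ∑ e, t e * a e := by
        rw [Finset.mul_sum]
        refine Finset.sum_congr rfl fun e _ => ?_
        ring
      rw [e2, e3, Ar_zpow_four N hN]
    have e4 : (∏ e, mu (Ar N) (B.size e) (B.size e - 2 * (r e)) ^ a e) = 
        Ar N ^ (∑ e, (((B.size e - 2 * (r e : ℕ) : ℕ) : ℤ) * ((B.size e - 2 * (r e : ℕ) : ℕ) + 2) - 
        3 * B.size e) * a e) := by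
      rw [zpow_sum _ hA]
      refine Finset.prod_congr rfl fun e _ => ?_
      rw [mu, ← zpow_mul]
    rw [e1, e4, ← zpow_add₀ hA, ← zpow_add₀ hA]
    congr 1
    have e5 : ∑ e, 4 * t e * a e = 
        ∑ e, (((B.size e - 2 * (r e : ℕ) : ℕ) : ℤ) * ((B.size e - 2 * (r e : ℕ) : ℕ) + 2) - 3 * B.size e) * a e 
        - 3 * ∑ e, a e * ((lk O (B.off e) (B.size e)) ^ 2 - B.size e) := by
      rw [Finset.mul_sum, ← Finset.sum_sub_distrib]
      refine Finset.sum_congr rfl fun e _ => ?_
      rw [← ht e]; ring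
    rw [e5]
    ring
  calc _ = ev N hN (if Even O.close.writhe then 1 else -1) * 
        (Ar N ^ (-3 * (O.close.writhe + ∑ e, a e * ((lk O (B.off e) (B.size e)) ^ 2 - B.size e))) * 
          (∏ e, mu (Ar N) (B.size e) (B.size e - 2 * (r e)) ^ a e)) * 
          L ((List.ofFn (fun e => P e (r e))).prod) / N := by ring
    _ = _ := by rw [h4]; ring

end Pool.Agent.H297.FT
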