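import Pool.Agent.H297.FT.Line
import Pool.Agent.H832R3.TW.E

set_option autoImplicit false

namespace Pool.Agent.H297.FT

open Finset Pool.Agent.H891R2.Jones

variable {m k : ℕ}

/-- the diagram after one more crossing -/
def pushE (O : Outer m) (pos : Bool) (i : ℕ) (h : i + 1 < m) : Outer m where
  P := O.P ⊕ Fin m
  arcs := O.arcs.map (Prod.map .inl .inl) ++
    ((List.finRange m).filter (fun j => j ≠ ⟨i, Nat.lt_of_succ_lt h⟩ ∧ j ≠ ⟨i+1, h⟩)).map
      (fun j => if O.up j then (.inl (O.lower j), .inr j) else (.inr j, .inl (O.lower j)))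
  crossings := O.crossings.map (Crossing.map .inl) ++ 
    [O.newCrossing ⟨i, Nat.lt_of_succ_lt h⟩ ⟨i+1, h⟩ pos]
  lower := .inr
  upper := fun j => .inl (O.upper j)
  up := O.up ∘ Equiv.swap ⟨i, Nat.lt_of_succ_lt h⟩ ⟨i+1, h⟩

theorem push_eq (O : Outer m) (pos : Bool) (i : ℕ) (h : i + 1 < m) : O.push pos i = pushE O pos i h := by
  rw [Outer.push, dif_pos h]
  rfl

theorem Sst_pushE (O : Outer m) (v : Fin m → Bool) (pos : Bool) (i : ℕ) (h : i + 1 < m)
    (c : O.P → ℕ) (hO : ∀ x, Sst O v x = c x) : 
    ∀ x, Sst (pushE O pos i h) v x = Sum.elim c (fun _ => 1) x := by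
  unfold pushE
  have hpq : (⟨i, Nat.lt_of_succ_lt h⟩ : Fin m) ≠ ⟨i+1, h⟩ := by
    intro h'; simp only [Fin.mk.injEq] at h'; omega
  generalize (⟨i, Nat.lt_of_succ_lt h⟩ : Fin m) = p at hpq ⊢
  generalize (⟨i+1, h⟩ : Fin m) = q at hpq ⊢
  rintro (x | j₀)
  · have hx := hO x
    unfold Sst at hx ⊢
    dsimp only
    rw [List.map_append, List.sum_append, List.map_map, List.map_map, sum_filter_map,
      ← Fin.sum_univ_def, List.map_append, List.sum_append, List.map_map, List.map_singleton,
      List.sum_singleton]
    have e1 : ((fun z : (O.P ⊕ Fin m) × (O.P ⊕ Fin m) => if z.1 = Sum.inl x then (1:ℕ) else 0) ∘ 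
        Prod.map Sum.inl Sum.inl) = fun z : O.P × O.P => if z.1 = x then 1 else 0 := by
      funext z; simp
    have e2 : (cst (Sum.inl x : O.P ⊕ Fin m) ∘ Crossing.map Sum.inl) = cst x := by
      funext c
      simp only [Function.comp_apply, cst, Crossing.map]
      congr 1
      · split_ifs <;> simp_all
      · split_ifs <;> simp_all
    have e3 : (∑ j, if (O.up ∘ Equiv.swap p q) j = true ∧ (Sum.inr j : O.P ⊕ Fin m) = Sum.inl x 
        then (1:ℕ) else 0) = 0 := by
      apply Finset.sum_eq_zero; intro j _; simp
    have e4 : (∑ j, if ¬ v j = true ∧ (Sum.inl (O.upper j) : O.P ⊕ Fin m) = Sum.inl x then (1:ℕ) else 0)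
        = ∑ j, if ¬ v j = true ∧ O.upper j = x then 1 else 0 := by
      refine Finset.sum_congr rfl fun j _ => ?_
      simp
    have e5 : (∑ j, if j ≠ p ∧ j ≠ q then ((fun z : (O.P ⊕ Fin m) × (O.P ⊕ Fin m) => 
          if z.1 = Sum.inl x then (1:ℕ) else 0) ∘ 
          (fun j => if O.up j = true then (Sum.inl (O.lower j), Sum.inr j) 
            else (Sum.inr j, Sum.inl (O.lower j)))) j else 0) + 
          cst (Sum.inl x) (O.newCrossing p q pos) = 
        ∑ j, if O.up j = true ∧ O.lower j = x then 1 else 0 := by
      have e6 : ∀ j, (if O.up j = true ∧ O.lower j = x then (1:ℕ) else 0) = 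
          (if j ≠ p ∧ j ≠ q then (if O.up j = true ∧ O.lower j = x then (1:ℕ) else 0) else 0) + 
          ((if j = p then (if O.up j = true ∧ O.lower j = x then (1:ℕ) else 0) else 0) + 
          (if j = q then (if O.up j = true ∧ O.lower j = x then (1:ℕ) else 0) else 0)) := by
        intro j
        by_cases h1 : j = p
        · subst h1; simp [hpq]
        · by_cases h2 : j = q
          · subst h2; simp [h1]
          · simp [h1, h2]
      rw [Finset.sum_congr rfl (fun j _ => e6 j), Finset.sum_add_distrib, Finset.sum_add_distrib,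
        Finset.sum_ite_eq' Finset.univ p, Finset.sum_ite_eq' Finset.univ q]
      simp only [Finset.mem_univ, if_true]
      congr 1
      · refine Finset.sum_congr rfl fun j _ => ?_
        by_cases hj : j ≠ p ∧ j ≠ q
        · rw [if_pos hj, if_pos hj]
          cases hu : O.up j <;> simp [hu]
        · rw [if_neg hj, if_neg hj]
      · unfold cst Outer.newCrossing
        cases pos <;> cases hp : O.up p <;> cases hq : O.up q <;> simp [add_comm]
    rw [e1, e2, e3, e4]
    simp only [Sum.elim_inl]
    omega
  · unfold Sst
    dsimp only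
    rw [List.map_append, List.sum_append, List.map_map, List.map_map, sum_filter_map,
      ← Fin.sum_univ_def, List.map_append, List.sum_append, List.map_map, List.map_singleton,
      List.sum_singleton]
    have e1 : (O.arcs.map ((fun z : (O.P ⊕ Fin m) × (O.P ⊕ Fin m) => 
        if z.1 = Sum.inr j₀ then (1:ℕ) else 0) ∘ Prod.map Sum.inl Sum.inl)).sum = 0 := by
      apply List.sum_eq_zero
      intro n hn
      rw [List.mem_map] at hn
      obtain ⟨z, _, rfl⟩ := hn
      simp
    have e2 : (O.crossings.map (cst (Sum.inr j₀ : O.P ⊕ Fin m) ∘ Crossing.map Sum.inl)).sum = 0 := by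
      apply List.sum_eq_zero
      intro n hn
      rw [List.mem_map] at hn
      obtain ⟨⟨a, b, c, d, u, o⟩, _, rfl⟩ := hn
      cases u <;> cases o <;> simp [cst, Crossing.map]
    have e3 : (∑ j, if (O.up ∘ Equiv.swap p q) j = true ∧ (Sum.inr j : O.P ⊕ Fin m) = Sum.inr j₀ 
        then (1:ℕ) else 0) = if O.up (Equiv.swap p q j₀) = true then 1 else 0 := by
      rw [Finset.sum_eq_single j₀]
      · simp
      · intro j _ hj; simp [hj]
      · simp
    have e4 : (∑ j, if ¬ v j = true ∧ (Sum.inl (O.upper j) : O.P ⊕ Fin m) = Sum.inr j₀ then (1:ℕ) else 0)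
        = 0 := by
      apply Finset.sum_eq_zero; intro j _; simp
    have e5 : (∑ j, if j ≠ p ∧ j ≠ q then ((fun z : (O.P ⊕ Fin m) × (O.P ⊕ Fin m) => 
          if z.1 = Sum.inr j₀ then (1:ℕ) else 0) ∘ 
          (fun j => if O.up j = true then (Sum.inl (O.lower j), Sum.inr j) 
            else (Sum.inr j, Sum.inl (O.lower j)))) j else 0) = 
        if j₀ ≠ p ∧ j₀ ≠ q then (if O.up j₀ = true then 0 else 1) else 0 := by
      rw [Finset.sum_eq_single j₀]
      · by_cases hj : j₀ ≠ p ∧ j₀ ≠ q
        · rw [if_pos hj, if_pos hj]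
          cases hu : O.up j₀ <;> simp [hu]
        · rw [if_neg hj, if_neg hj]
      · intro j _ hne
        by_cases hj : j ≠ p ∧ j ≠ q
        · rw [if_pos hj]
          cases hu : O.up j <;> simp [hu, hne]
        · rw [if_neg hj]
      · simp
    rw [e1, e2, e3, e4, e5]
    simp only [Sum.elim_inr]
    by_cases h1 : j₀ = p
    · subst h1
      rw [Equiv.swap_apply_left]
      unfold cst Outer.newCrossing
      cases pos <;> cases hp : O.up j₀ <;> cases hq : O.up q <;> simp [hpq, hpq.symm]
    · by_cases h2 : j₀ = q
      · subst h2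
        rw [Equiv.swap_apply_right]
        unfold cst Outer.newCrossing
        cases pos <;> cases hp : O.up p <;> cases hq : O.up j₀ <;> simp [hpq, hpq.symm]
      · rw [Equiv.swap_apply_of_ne_of_ne h1 h2]
        unfold cst Outer.newCrossing
        have h1' : ¬ p = j₀ := fun h => h1 h.symm
        have h2' : ¬ q = j₀ := fun h => h2 h.symm
        cases pos <;> cases hp : O.up p <;> cases hq : O.up q <;> cases hj : O.up j₀ <;> 
          simp [h1, h2, h1', h2']


theorem rev_pushE_arcs (O : Outer m) (pos : Bool) (i : ℕ) (h : i + 1 < m) : 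
    (pushE O pos i h).rev.arcs = (pushE O.rev pos i h).arcs := by
  unfold pushE Outer.rev
  dsimp only
  rw [List.map_append, List.map_map, List.map_map, List.map_map]
  congr 1
  apply List.map_congr_left
  intro j _
  simp only [Function.comp_apply]
  by_cases hu : O.up j = true <;> simp [hu]

theorem rev_pushE_crossings (O : Outer m) (pos : Bool) (i : ℕ) (h : i + 1 < m) : 
    (pushE O pos i h).rev.crossings = (pushE O.rev pos i h).crossings := by
  unfold pushE Outer.rev
  dsimp only
  rw [List.map_append, List.map_map, List.map_map]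
  congr 1
  rw [List.map_singleton]
  congr 1
  cases pos <;> simp [Outer.newCrossing, Crossing.rev]

theorem Sst_rev_pushE (O : Outer m) (v : Fin m → Bool) (pos : Bool) (i : ℕ) (h : i + 1 < m)
    (c : O.P → ℕ) (hO : ∀ x, Sst O.rev v x = c x) : 
    ∀ x, Sst (pushE O pos i h).rev v x = Sum.elim c (fun _ => 1) x := by
  intro x
  refine Eq.trans ?_ (Sst_pushE O.rev v pos i h c hO x)
  unfold Sst
  rw [rev_pushE_arcs, rev_pushE_crossings]
  rfl

/-- all points but the head are the start of one piece, all but the tail the end of one piece -/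
def KGood (O : Outer m) (v : Fin m → Bool) : Prop :=
  ∃ tail head : O.P, tail ≠ head ∧ (∀ x, Sst O v x = if x = head then 0 else 1) ∧ 
    (∀ x : O.P, Sst O.rev (fun j => !(v j)) x = if x = tail then 0 else 1)

theorem KGood_push (O : Outer m) (v : Fin m → Bool) (pos : Bool) (i : ℕ)
    (hO : KGood O v) : KGood (O.push pos i) v := by
  by_cases h : i + 1 < m
  · rw [push_eq O pos i h]
    obtain ⟨tail, head, hth, h1, h2⟩ := hO
    refine ⟨Sum.inl tail, Sum.inl head, fun he => hth (Sum.inl_injective he), ?_, ?_⟩
    · intro x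
      refine (Sst_pushE O v pos i h (fun x : O.P => if x = head then 0 else 1) h1 x).trans ?_
      rcases x with x | x
      · simp only [Sum.elim_inl]
        split_ifs with h3 h4 h4
        · rfl
        · exact absurd (congrArg Sum.inl h3) h4
        · exact absurd (Sum.inl_injective h4) h3
        · rfl
      · have h4 : ∀ z : O.P, ¬ ((Sum.inr x : O.P ⊕ Fin m) = Sum.inl z) := by
          intro z h5
          cases h5
        exact (if_neg (h4 _)).symm
    · intro x
      refine (Sst_rev_pushE O _ pos i h (fun x : O.P => if x = tail then 0 else 1) h2 x).trans ?_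
      rcases x with x | x
      · simp only [Sum.elim_inl]
        split_ifs with h3 h4 h4
        · rfl
        · exact absurd (congrArg Sum.inl h3) h4
        · exact absurd (Sum.inl_injective h4) h3
        · rfl
      · have h4 : ∀ z : O.P, ¬ ((Sum.inr x : O.P ⊕ Fin m) = Sum.inl z) := by
          intro z h5
          cases h5
        exact (if_neg (h4 _)).symm
  · unfold Outer.push
    rw [dif_neg h]
    exact hO

theorem KGood_pushList (v : Fin m → Bool) (pos : Bool) (w : List ℕ) : ∀ (O : Outer m),
    KGood O v → KGood (O.pushList pos w) v := by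
  induction w with
  | nil => intro O h; exact h
  | cons i w ih => intro O h; exact ih _ (KGood_push O v pos i h)

theorem box_kgood (O : Outer m) (off n : ℕ) (a : ℤ) (v : Fin m → Bool) (hO : KGood O v) :
    KGood (box O off n a) v := by
  have hpos : ∀ (t : ℕ) (O' : Outer m), KGood O' v → 
      KGood ((fun O : Outer m => O.pushList true (twistWord n off))^[t] O') v := by
    intro t
    induction t with
    | zero => intro O' h; exact h
    | succ t ih =>
      intro O' h
      rw [Function.iterate_succ_apply]
      exact ih _ (KGood_pushList _ _ _ _ h)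
  have hneg : ∀ (t : ℕ) (O' : Outer m), KGood O' v → 
      KGood ((fun O : Outer m => O.pushList false (twistWord n off).reverse)^[t] O') v := by
    intro t
    induction t with
    | zero => intro O' h; exact h
    | succ t ih =>
      intro O' h
      rw [Function.iterate_succ_apply]
      exact ih _ (KGood_pushList _ _ _ _ h)
  rcases a with t | t
  · exact hpos t O hO
  · exact hneg (t+1) O hO

theorem fillL_kgood (B : Boxes m k) (a : Fin k → ℤ) (v : Fin m → Bool) (l : List (Fin k)) : 
    ∀ (O : Outer m), KGood O v → KGood (fillL B a l O) v := by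
  induction l with
  | nil => intro O h; exact h
  | cons e l ih =>
    intro O h
    exact ih _ (box_kgood O _ _ _ v h)

theorem starts_eq (O : Outer m) (x : O.P) : O.close.starts.count x = Sst O O.up x := by
  unfold Diagram.starts Outer.close Sst
  dsimp only
  rw [List.count_append, List.count_append, count_eq_sum, count_eq_sum, count_eq_sum,
    List.map_map, List.map_map, List.map_map, List.map_append, List.sum_append, List.map_map,
    ← Fin.sum_univ_def]
  have e1 : (O.crossings.map (cst x)).sum = 
      (O.crossings.map ((fun b => if b = x then (1:ℕ) else 0) ∘ 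
        (fun c => if c.underFwd = true then c.a else c.c))).sum + 
      (O.crossings.map ((fun b => if b = x then (1:ℕ) else 0) ∘ 
        (fun c => if c.overFwd = true then c.b else c.d))).sum := by
    rw [← List.sum_map_add]
    rfl
  have e2 : (∑ j, (((fun b => if b = x then (1:ℕ) else 0) ∘ Prod.fst) ∘ 
      (fun j => if O.up j = true then (O.lower j, O.upper j) else (O.upper j, O.lower j))) j) = 
      (∑ j, if O.up j = true ∧ O.lower j = x then 1 else 0) + 
      (∑ j, if ¬ O.up j = true ∧ O.upper j = x then 1 else 0) := by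
    rw [← Finset.sum_add_distrib]
    refine Finset.sum_congr rfl fun j _ => ?_
    simp only [Function.comp_apply]
    cases hu : O.up j <;> simp
  rw [e1, e2]
  have e3 : ((fun b => if b = x then (1:ℕ) else 0) ∘ Prod.fst) = 
      (fun z : O.P × O.P => if z.1 = x then (1:ℕ) else 0) := rfl
  rw [e3]
  omega

theorem ends_eq (O : Outer m) (x : O.P) : 
    O.close.ends.count x = Sst O.rev (fun j => !(O.up j)) x := by
  unfold Diagram.ends Outer.close Sst Outer.rev
  dsimp only
  rw [List.count_append, List.count_append, count_eq_sum, count_eq_sum, count_eq_sum,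
    List.map_map, List.map_map, List.map_map, List.map_append, List.sum_append, List.map_map,
    ← Fin.sum_univ_def, List.map_map, List.map_map]
  have e1 : (O.crossings.map (cst x ∘ Crossing.rev)).sum = 
      (O.crossings.map ((fun b => if b = x then (1:ℕ) else 0) ∘ 
        (fun c => if c.underFwd = true then c.c else c.a))).sum + 
      (O.crossings.map ((fun b => if b = x then (1:ℕ) else 0) ∘ 
        (fun c => if c.overFwd = true then c.d else c.b))).sum := by
    rw [← List.sum_map_add]
    congr 1
    apply List.map_congr_left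
    rintro ⟨a, b, c, d, u, o⟩ _
    cases u <;> cases o <;> simp [cst, Crossing.rev]
  have e2 : (∑ j, (((fun b => if b = x then (1:ℕ) else 0) ∘ Prod.snd) ∘ 
      (fun j => if O.up j = true then (O.lower j, O.upper j) else (O.upper j, O.lower j))) j) = 
      (∑ j, if (!(O.up j)) = true ∧ O.lower j = x then 1 else 0) + 
      (∑ j, if ¬ (!(O.up j)) = true ∧ O.upper j = x then 1 else 0) := by
    rw [← Finset.sum_add_distrib]
    refine Finset.sum_congr rfl fun j _ => ?_
    simp only [Function.comp_apply]
    cases hu : O.up j <;> simp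
  rw [e1, e2]
  have e3 : ((fun z : O.P × O.P => if z.1 = x then (1:ℕ) else 0) ∘ Prod.swap) = 
      ((fun b => if b = x then (1:ℕ) else 0) ∘ Prod.snd) := rfl
  rw [e3]
  omega

theorem knotoid_iff (O : Outer m) : Pool.Agent.H832R3.TW.IsKnotoid O.close ↔ KGood O O.up := by
  constructor
  · rintro ⟨tail, head, hth, h⟩
    exact ⟨tail, head, hth, fun x => (starts_eq O x).symm.trans (h x).1, 
      fun x => (ends_eq O x).symm.trans (h x).2⟩
  · rintro ⟨tail, head, hth, h1, h2⟩
    exact ⟨tail, head, hth, fun x => ⟨(starts_eq O x).trans (h1 x), (ends_eq O x).trans (h2 x)⟩⟩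

theorem family_knotoid (O : Outer m) (h : Pool.Agent.H832R3.TW.IsKnotoid O.close) (B : Boxes m k) 
    (a : Fin k → ℤ) : Pool.Agent.H832R3.TW.IsKnotoid (family O B a) := by
  unfold family
  rw [knotoid_iff, show (fill O B a).up = O.up from (fillL_writhe B a (List.finRange k) O).2]
  rw [knotoid_iff] at h
  exact fillL_kgood B a O.up (List.finRange k) O h

end Pool.Agent.H297.FT
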