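import Pool.Agent.H297.FT.Main

set_option autoImplicit false

namespace Pool.Agent.H297.FT

open Finset Pool.Agent.H891R2.Jones

variable {m k : ℕ}

theorem line_law (hm : 0 < m) (O : Outer m) (B : Boxes m k) (b v : Fin k → ℤ) :
    ((∃ r : Ind B, wt O B (some r) v = 0) ∧ ∀ t : ℤ, (family O B (b + t • v)).fPoly = 1) ∨
    ({t : ℤ | (family O B (b + t • v)).fPoly = 1}.Finite ∧
      {t : ℤ | (family O B (b + t • v)).fPoly = 1}.ncard ≤ mNum O B v) := by
  classical
  by_cases hT : ∀ T : Finset ℤ, (↑T : Set ℤ) ⊆ {t : ℤ | (family O B (b + t • v)).fPoly = 1} → 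
      T.card ≤ mNum O B v
  · exact Or.inr (finite_of_bound _ _ hT)
  left
  push Not at hT
  obtain ⟨T, hT, hc⟩ := hT
  let J : Finset ℤ := insert 0 (Finset.univ.image (fun r : Ind B => wt O B (some r) v))
  have hJ : J.card = mNum O B v + 1 := by
    unfold mNum
    rw [← Finset.card_insert_of_notMem (Finset.notMem_erase 0 _)]
    congr 1
    ext j
    simp only [J, Finset.mem_insert, Finset.mem_erase]
    tauto
  have hJeven : ∀ j ∈ J, ∃ i, j = 2 * i := by
    intro j hj
    rcases Finset.mem_insert.1 hj with rfl | hj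
    · exact ⟨0, by simp⟩
    · obtain ⟨r, _, rfl⟩ := Finset.mem_image.1 hj
      exact ⟨_, ux_wt O B v (some r)⟩
  have hinj : Set.InjOn (fun j : ℤ => j / 2) (J : Set ℤ) := by
    intro i hi j hj hij
    obtain ⟨i', rfl⟩ := hJeven i hi
    obtain ⟨j', rfl⟩ := hJeven j hj
    have : 2 * i' / 2 = 2 * j' / 2 := hij
    omega
  -- the formula on the line
  have hline : ∀ (N : ℕ) (hN : 3 ≤ N), ∃ c : ℤ → ℂ, 
      (c 0 ≠ 0 → ∃ r : Ind B, wt O B (some r) v = 0) ∧ ∀ t : ℤ, 
      ev N hN (family O B (b + t • v)).fPoly = ∑ j ∈ J, c j * (((xr N) ^ t : ℝ) : ℂ) ^ (j / 2) := by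
    intro N hN
    obtain ⟨C, hC⟩ := formula hm O B N hN
    have hx0 : (xr N : ℂ) ≠ 0 := by
      rw [Complex.ofReal_ne_zero]; linarith [xr_gt N hN]
    refine ⟨fun j => ∑ r ∈ (Finset.univ : Finset (Ind B)).filter (fun r => wt O B (some r) v = j), 
      C r * (xr N : ℂ) ^ (∑ e, kp O B e (r e) * b e), ?_, ?_⟩
    · intro h
      by_contra hcon
      push Not at hcon
      apply h
      exact Finset.sum_eq_zero (fun r hr => absurd (Finset.mem_filter.1 hr).2 (hcon r))
    · intro t
      rw [hC]
      have h1 : ∀ r : Ind B, C r * (xr N : ℂ) ^ (∑ e, kp O B e (r e) * (b + t • v) e) = 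
          (C r * (xr N : ℂ) ^ (∑ e, kp O B e (r e) * b e)) * 
            (((xr N) ^ t : ℝ) : ℂ) ^ (wt O B (some r) v / 2) := by
        intro r
        have h2 : wt O B (some r) v / 2 = ∑ e, kp O B e (r e) * v e := by
          have := ux_wt O B v (some r)
          have h3 : ux O B v (some r) = ∑ e, kp O B e (r e) * v e := rfl
          omega
        have h4 : ∑ e, kp O B e (r e) * (b + t • v) e = 
            ∑ e, kp O B e (r e) * b e + t * ∑ e, kp O B e (r e) * v e := by
          rw [Finset.mul_sum, ← Finset.sum_add_distrib]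
          refine Finset.sum_congr rfl fun e _ => ?_
          simp only [Pi.add_apply, Pi.smul_apply, smul_eq_mul]
          ring
        rw [h2, h4, zpow_add₀ hx0, Complex.ofReal_zpow, ← zpow_mul]
        ring
      simp only [h1]
      rw [← Finset.sum_fiberwise_of_maps_to (s := Finset.univ) (t := J)
        (g := fun r : Ind B => wt O B (some r) v) (fun r _ => Finset.mem_insert_of_mem 
          (Finset.mem_image_of_mem _ (Finset.mem_univ r)))]
      refine Finset.sum_congr rfl fun j _ => ?_
      rw [Finset.sum_mul]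
      refine Finset.sum_congr rfl fun r hr => ?_
      rw [(Finset.mem_filter.1 hr).2]
  -- all coefficients vanish
  have hzero : ∀ (N : ℕ) (hN : 3 ≤ N) (c : ℤ → ℂ), (∀ t : ℤ, 
      ev N hN (family O B (b + t • v)).fPoly = ∑ j ∈ J, c j * (((xr N) ^ t : ℝ) : ℂ) ^ (j / 2)) → 
      ∀ j ∈ J, (c j - if j = 0 then 1 else 0) = 0 := by
    intro N hN c hc'
    have hx := xr_gt N hN
    refine exp_zero_complex J (fun j => j / 2) (fun j => c j - if j = 0 then 1 else 0)
      (T.image (fun t => (xr N) ^ t)) hinj ?_ ?_ ?_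
    · intro y hy
      rw [Finset.mem_image] at hy
      obtain ⟨a, _, rfl⟩ := hy
      exact zpow_pos (by linarith) a
    · rw [hJ, Finset.card_image_of_injective _ (zpow_right_injective₀ (by linarith) (by linarith))]
      omega
    · intro y hy
      rw [Finset.mem_image] at hy
      obtain ⟨t, ht, rfl⟩ := hy
      have h1 := hc' t
      have h2 : (family O B (b + t • v)).fPoly = 1 := hT (Finset.mem_coe.2 ht)
      rw [h2, map_one] at h1
      have h3 : ∀ j ∈ J, (c j - if j = 0 then 1 else 0) * (((xr N) ^ t : ℝ) : ℂ) ^ (j / 2) = 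
          c j * (((xr N) ^ t : ℝ) : ℂ) ^ (j / 2) - if j = 0 then 1 else 0 := by
        intro j _
        by_cases hj : j = 0
        · subst hj; simp
        · simp [hj]
      rw [Finset.sum_congr rfl h3, Finset.sum_sub_distrib, ← h1, Finset.sum_ite_eq' J 0,
        if_pos (Finset.mem_insert_self _ _), sub_self]
  refine ⟨?_, ?_⟩
  · obtain ⟨c, hc0, hc1⟩ := hline 3 le_rfl
    have := hzero 3 le_rfl c hc1 0 (Finset.mem_insert_self _ _)
    rw [if_pos rfl, sub_eq_zero] at this
    exact hc0 (by rw [this]; exact one_ne_zero)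
  · intro t
    apply eq_one_of_ev
    intro N hN
    obtain ⟨c, _, hc1⟩ := hline N hN
    have hz := hzero N hN c hc1
    rw [hc1 t, Finset.sum_eq_single 0]
    · have := hz 0 (Finset.mem_insert_self _ _)
      rw [if_pos rfl, sub_eq_zero] at this
      rw [this]
      simp
    · intro j hj hne
      have := hz j hj
      rw [if_neg hne, sub_zero] at this
      rw [this, zero_mul]
    · intro h
      exact absurd (Finset.mem_insert_self _ _) h

end Pool.Agent.H297.FT
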