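import Pool.Agent.H297.FT.Formula
import Pool.Agent.H297.FT.Comb

set_option autoImplicit false

namespace Pool.Agent.H297.FT

open Finset Pool.Agent.H891R2.Jones

variable {m k : ℕ}

/-- the values on a line -/
theorem line_formula (hm : 0 < m) (O : Outer m) (B : Boxes m k) (N : ℕ) (hN : 3 ≤ N) (e : Fin k)
    (a : Fin k → ℤ) : ∃ c : ℕ → ℂ, ∀ t : ℤ, ev N hN (family O B (Function.update a e t)).fPoly = 
      ∑ i ∈ Finset.range (B.size e / 2 + 1), c i * (((xr N) ^ t : ℝ) : ℂ) ^ (kp O B e i) := by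
  obtain ⟨C, hC⟩ := formula hm O B N hN
  have hx0 : (xr N : ℂ) ≠ 0 := by
    rw [Complex.ofReal_ne_zero]; linarith [xr_gt N hN]
  refine ⟨fun i => ∑ r ∈ (Finset.univ : Finset (Ind B)).filter (fun r => (r e : ℕ) = i), 
    C r * (xr N : ℂ) ^ (∑ e' ∈ Finset.univ.erase e, kp O B e' (r e') * a e'), fun t => ?_⟩
  rw [hC]
  have h1 : ∀ r : Ind B, C r * (xr N : ℂ) ^ (∑ e', kp O B e' (r e') * (Function.update a e t) e') = 
      (C r * (xr N : ℂ) ^ (∑ e' ∈ Finset.univ.erase e, kp O B e' (r e') * a e')) * 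
        (((xr N) ^ t : ℝ) : ℂ) ^ (kp O B e (r e)) := by
    intro r
    rw [← Finset.add_sum_erase Finset.univ _ (Finset.mem_univ e), Function.update_self,
      zpow_add₀ hx0]
    have h2 : ∑ x ∈ Finset.univ.erase e, kp O B x (r x) * Function.update a e t x = 
        ∑ e' ∈ Finset.univ.erase e, kp O B e' (r e') * a e' := by
      refine Finset.sum_congr rfl fun x hx => ?_
      rw [Function.update_of_ne (Finset.ne_of_mem_erase hx)]
    rw [h2, Complex.ofReal_zpow, ← zpow_mul, mul_comm t]
    ring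
  simp only [h1]
  rw [← Finset.sum_fiberwise_of_maps_to (s := Finset.univ) (t := Finset.range (B.size e / 2 + 1))
    (g := fun r : Ind B => (r e : ℕ)) (fun r _ => Finset.mem_range.2 (r e).2)]
  refine Finset.sum_congr rfl fun i _ => ?_
  rw [Finset.sum_mul]
  refine Finset.sum_congr rfl fun r hr => ?_
  rw [(Finset.mem_filter.1 hr).2]

theorem line_nonExc (hm : 0 < m) (O : Outer m) (B : Boxes m k) (e : Fin k)
    (hP : ¬ Exceptional (B.size e) (lk O (B.off e) (B.size e))) (a : Fin k → ℤ) (T : Finset ℤ)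
    (hT : ∀ t ∈ T, (family O B (Function.update a e t)).fPoly = 1) : 
    T.card ≤ B.size e / 2 + 1 := by
  by_contra hcon
  have hN : 3 ≤ 3 := le_rfl
  obtain ⟨C, hC⟩ := line_formula hm O B 3 hN e a
  have hx := xr_gt 3 hN
  have hpar := lk_parity O (B.le e)
  -- exponents
  have key := exp_zero_complex 
    (insert none ((Finset.range (B.size e / 2 + 1)).map Function.Embedding.some))
    (fun i : Option ℕ => i.elim 0 (kp O B e)) (fun i : Option ℕ => i.elim (-1) C)
    (T.image (fun a => (xr 3) ^ a)) ?_ ?_ ?_ ?_ none (Finset.mem_insert_self _ _)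
  · simp at key
  · -- injectivity
    have hne : ∀ j ∈ Finset.range (B.size e / 2 + 1), kp O B e j ≠ 0 := by
      intro j hj h0
      obtain ⟨t, ht, ht'⟩ := kap_spec hpar (Finset.mem_range.1 hj)
      apply hP
      refine ⟨B.size e - 2 * j, Nat.sub_le _ _, ?_⟩
      have h0' : kap (B.size e) (lk O (B.off e) (B.size e)) j = 0 := h0
      have : t = 0 := by omega
      subst this
      linarith
    intro a ha b hb hab
    simp only [Finset.coe_insert, Finset.coe_map, Set.mem_insert_iff, Set.mem_image,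
      Finset.mem_coe, Function.Embedding.some_apply] at ha hb
    rcases ha with rfl | ⟨i, hi, rfl⟩ <;> rcases hb with rfl | ⟨j, hj, rfl⟩
    · rfl
    · exact absurd hab.symm (hne j hj)
    · exact absurd hab (hne i hi)
    · rw [kap_inj hpar (Finset.mem_coe.2 hi) (Finset.mem_coe.2 hj) hab]
  · intro y hy
    rw [Finset.mem_image] at hy
    obtain ⟨a, _, rfl⟩ := hy
    exact zpow_pos (by linarith) a
  · rw [Finset.card_insert_of_notMem (by simp), Finset.card_map, Finset.card_range,
      Finset.card_image_of_injective _ (zpow_right_injective₀ (by linarith) (by linarith))]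
    omega
  · intro y hy
    rw [Finset.mem_image] at hy
    obtain ⟨t, ht, rfl⟩ := hy
    have h1 := hC t
    rw [hT t ht, map_one] at h1
    rw [Finset.sum_insert (by simp), Finset.sum_map]
    simp only [Option.elim, Function.Embedding.some_apply, zpow_zero, mul_one]
    rw [← h1]
    ring

theorem line_Exc (hm : 0 < m) (O : Outer m) (B : Boxes m k) (e : Fin k)
    (hP : Exceptional (B.size e) (lk O (B.off e) (B.size e))) (a : Fin k → ℤ) (T : Finset ℤ)
    (hT : ∀ t ∈ T, (family O B (Function.update a e t)).fPoly = 1) 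
    (hc : B.size e / 2 < T.card) (b : ℤ) : (family O B (Function.update a e b)).fPoly = 1 := by
  have hpar := lk_parity O (B.le e)
  obtain ⟨s, hsm, hs⟩ := hP
  -- parity of s
  have hs2 : ((s : ℤ) - B.size e) % 2 = 0 := by
    have h1 : ((s : ℤ) * (s + 2)) % 2 = (3 * (lk O (B.off e) (B.size e)) ^ 2) % 2 := by rw [hs]
    have h2 : ((s : ℤ)) % 2 = (lk O (B.off e) (B.size e)) % 2 := by
      rcases Int.emod_two_eq_zero_or_one (s : ℤ) with h | h <;>
      rcases Int.emod_two_eq_zero_or_one (lk O (B.off e) (B.size e)) with h' | h' <;>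
      simp [Int.mul_emod, pow_two, h, h'] at h1 ⊢
    omega
  obtain ⟨j₀, hj₀, hj₀'⟩ : ∃ j₀, j₀ < B.size e / 2 + 1 ∧ B.size e - 2 * j₀ = s := 
    ⟨(B.size e - s) / 2, by omega, by omega⟩
  have hk0 : kp O B e j₀ = 0 := by
    unfold kp kap
    rw [hj₀', hs]
    simp
  apply eq_one_of_ev
  intro N hN
  obtain ⟨C, hC⟩ := line_formula hm O B N hN e a
  have hx := xr_gt N hN
  have key := exp_zero_complex (Finset.range (B.size e / 2 + 1)) (kp O B e) 
    (fun j => C j - if j = j₀ then 1 else 0)
    (T.image (fun a => (xr N) ^ a)) (kap_inj hpar) ?_ ?_ ?_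
  · rw [hC b, Finset.sum_eq_single j₀]
    · have := key j₀ (Finset.mem_range.2 hj₀)
      rw [if_pos rfl, sub_eq_zero] at this
      rw [this, hk0]
      simp
    · intro j hj hne
      have := key j hj
      rw [if_neg hne, sub_zero] at this
      rw [this, zero_mul]
    · intro h
      exact absurd (Finset.mem_range.2 hj₀) h
  · intro y hy
    rw [Finset.mem_image] at hy
    obtain ⟨a, _, rfl⟩ := hy
    exact zpow_pos (by linarith) a
  · rw [Finset.card_range,
      Finset.card_image_of_injective _ (zpow_right_injective₀ (by linarith) (by linarith))]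
    omega
  · intro y hy
    rw [Finset.mem_image] at hy
    obtain ⟨t, ht, rfl⟩ := hy
    have h1 := hC t
    rw [hT t ht, map_one] at h1
    have h3 : ∀ j ∈ Finset.range (B.size e / 2 + 1), 
        (C j - if j = j₀ then 1 else 0) * (((xr N) ^ t : ℝ) : ℂ) ^ (kp O B e j) = 
        C j * (((xr N) ^ t : ℝ) : ℂ) ^ (kp O B e j) - 
          if j = j₀ then 1 else 0 := by
      intro j _
      by_cases hj : j = j₀
      · subst hj
        rw [hk0]; simp
      · simp [hj]
    rw [Finset.sum_congr rfl h3, Finset.sum_sub_distrib, ← h1, Finset.sum_ite_eq' _ j₀,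
      if_pos (Finset.mem_range.2 hj₀), sub_self]

open Classical in
theorem lineClosed (hm : 0 < m) (O : Outer m) (B : Boxes m k) :
    LineClosed (fun e => hNum (B.size e) (lk O (B.off e) (B.size e))) 
      {a | (family O B a).fPoly = 1} := by
  intro e a T hT hc t
  by_cases hP : Exceptional (B.size e) (lk O (B.off e) (B.size e))
  · refine line_Exc hm O B e hP a T hT ?_ t
    have hc' : B.size e / 2 + (if Exceptional (B.size e) (lk O (B.off e) (B.size e)) then 0 else 1) < 
      T.card := hc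
    rw [if_pos hP] at hc'
    exact hc'
  · have := line_nonExc hm O B e hP a T hT
    have hc' : B.size e / 2 + (if Exceptional (B.size e) (lk O (B.off e) (B.size e)) then 0 else 1) < 
      T.card := hc
    rw [if_neg hP] at hc'
    omega

/-- if all the diagrams of the family have trivial polynomial, then all the boxes are exceptional -/
theorem all_Exc (hm : 0 < m) (O : Outer m) (B : Boxes m k) 
    (h : ∀ a, (family O B a).fPoly = 1) (e : Fin k) : 
    Exceptional (B.size e) (lk O (B.off e) (B.size e)) := by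
  by_contra hP
  obtain ⟨T, hT⟩ := Infinite.exists_subset_card_eq ℤ (B.size e / 2 + 2)
  have := line_nonExc hm O B e hP 0 T (fun t _ => h _)
  omega

/-! ### the structure of the set -/

/-- the exponents of `x` -/
noncomputable def ux (O : Outer m) (B : Boxes m k) (a : Fin k → ℤ) : Option (Ind B) → ℤ
  | none => 0
  | some r => ∑ e, kp O B e (r e) * a e

theorem ux_wt (O : Outer m) (B : Boxes m k) (a : Fin k → ℤ) (i : Option (Ind B)) :
    wt O B i a = 2 * ux O B a i := by
  rcases i with _ | r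
  · simp [wt, ux]
  · simp only [wt, ux, Finset.mul_sum]
    refine Finset.sum_congr rfl fun e _ => ?_
    obtain ⟨t, ht, ht'⟩ := kap_spec (lk_parity O (B.le e)) (r e).2
    have : kp O B e (r e) = 2 * t := ht'
    rw [this, ht]
    ring

theorem structure_thm (hm : 0 < m) (O : Outer m) (B : Boxes m k) :
    ∃ F : Finset ((Fin k → ℤ) × Finset (Option (Ind B) × Option (Ind B))), ∀ a : Fin k → ℤ,
      (family O B a).fPoly = 1 ↔ ∃ p ∈ F, ∀ q ∈ p.2, wt O B q.1 (a - p.1) = wt O B q.2 (a - p.1) := by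
  classical
  have hform : ∀ N : {N : ℕ // 3 ≤ N}, ∃ C : Ind B → ℂ, ∀ a : Fin k → ℤ, 
      ev N.1 N.2 (family O B a).fPoly = 
      ∑ r : Ind B, C r * (xr N.1 : ℂ) ^ (∑ e, kp O B e (r e) * a e) := fun N => formula hm O B N.1 N.2
  choose C hC using hform
  obtain ⟨F, _, hF⟩ := exp_structure (ι := Option (Ind B)) (ν := {N : ℕ // 3 ≤ N}) 
    (fun N => xr N.1) (fun N => xr_gt N.1 N.2) _ Finset.univ 
    (fun N i => i.elim (-1) (C N)) rfl
  have h1 : ∀ a : Fin k → ℤ, (family O B a).fPoly = 1 ↔ 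
      ∃ E ∈ F, ∀ q ∈ E, ux O B a q.1 = ux O B a q.2.1 + q.2.2 := by
    intro a
    rw [← hF]
    have h2 : ∀ N : {N : ℕ // 3 ≤ N}, (∑ i : Option (Ind B), 
        (i.elim (-1) (C N) : ℂ) * (xr N.1 : ℂ) ^ ux O B a i) = 
        ev N.1 N.2 (family O B a).fPoly - 1 := by
      intro N
      rw [Fintype.sum_option, hC N a]
      simp only [Option.elim, ux, zpow_zero, mul_one]
      ring
    constructor
    · intro h N
      rw [h2 N, h, map_one, sub_self]
    · intro h
      apply eq_one_of_ev
      intro N hN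
      have := h ⟨N, hN⟩
      rw [h2 ⟨N, hN⟩] at this
      exact sub_eq_zero.1 this
  -- cosets
  let Hs : Finset (Option (Ind B) × Option (Ind B) × ℤ) → Set (Fin k → ℤ) := fun E => 
    {a | ∀ q ∈ E, ux O B a q.1 = ux O B a q.2.1 + q.2.2}
  let base : Finset (Option (Ind B) × Option (Ind B) × ℤ) → (Fin k → ℤ) := fun E =>
    if h : (Hs E).Nonempty then h.some else 0
  refine ⟨(F.filter (fun E => (Hs E).Nonempty)).image (fun E => 
    (base E, E.image (fun q => (q.1, q.2.1)))), ?_⟩
  intro a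
  rw [h1]
  have hcos : ∀ E, (Hs E).Nonempty → ((∀ q ∈ E, ux O B a q.1 = ux O B a q.2.1 + q.2.2) ↔ 
      ∀ q ∈ E.image (fun q => (q.1, q.2.1)), 
        wt O B q.1 (a - base E) = wt O B q.2 (a - base E)) := by
    intro E hE
    have hb : base E ∈ Hs E := by
      have : base E = hE.some := dif_pos hE
      rw [this]
      exact hE.some_mem
    constructor
    · intro h q hq
      obtain ⟨q', hq', rfl⟩ := Finset.mem_image.1 hq
      have h3 := h q' hq'
      have h4 := hb q' hq'
      rw [wt_sub, wt_sub, ux_wt, ux_wt, ux_wt, ux_wt]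
      dsimp only
      linarith
    · intro h q hq
      have h3 := h _ (Finset.mem_image_of_mem _ hq)
      have h4 := hb q hq
      rw [wt_sub, wt_sub, ux_wt, ux_wt, ux_wt, ux_wt] at h3
      dsimp only at h3
      linarith
  constructor
  · rintro ⟨E, hE, hE'⟩
    have hne : (Hs E).Nonempty := ⟨a, hE'⟩
    exact ⟨_, Finset.mem_image_of_mem _ (Finset.mem_filter.2 ⟨hE, hne⟩), (hcos E hne).1 hE'⟩
  · rintro ⟨p, hp, hp'⟩
    obtain ⟨E, hE, rfl⟩ := Finset.mem_image.1 hp
    have hE2 := Finset.mem_filter.1 hE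
    exact ⟨E, hE2.1, (hcos E hE2.2).2 hp'⟩

theorem structure_thm' (hm : 0 < m) (O : Outer m) (B : Boxes m k) :
    ∃ F : Finset ((Fin k → ℤ) × Finset (Option (Ind B) × Option (Ind B))), 
      {a | (family O B a).fPoly = 1} = ⋃ p ∈ F, {a | a - p.1 ∈ Lam O B p.2} := by
  obtain ⟨F, hF⟩ := structure_thm hm O B
  refine ⟨F, ?_⟩
  ext a
  rw [Set.mem_ofPred_eq, hF a]
  simp only [Set.mem_iUnion, Set.mem_ofPred_eq, exists_prop]
  rfl

theorem finite_or_line (hm : 0 < m) (O : Outer m) (B : Boxes m k) :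
    {a | (family O B a).fPoly = 1}.Finite ∨ ∃ b v : Fin k → ℤ, v ≠ 0 ∧ 
      ∀ t : ℤ, (family O B (b + t • v)).fPoly = 1 := by
  obtain ⟨F, hF⟩ := structure_thm' hm O B
  by_cases h : ∃ p ∈ F, ∃ v ∈ Lam O B p.2, v ≠ 0
  · obtain ⟨p, hp, v, hv, hv0⟩ := h
    right
    refine ⟨p.1, v, hv0, fun t => ?_⟩
    have : p.1 + t • v ∈ {a | (family O B a).fPoly = 1} := by
      rw [hF]
      simp only [Set.mem_iUnion, Set.mem_ofPred_eq, exists_prop]
      refine ⟨p, hp, ?_⟩
      rw [add_sub_cancel_left]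
      exact AddSubgroup.zsmul_mem _ hv t
    exact this
  · left
    push Not at h
    apply Set.Finite.subset (F.image Prod.fst).finite_toSet
    intro a ha
    rw [hF] at ha
    simp only [Set.mem_iUnion, Set.mem_ofPred_eq, exists_prop] at ha
    obtain ⟨p, hp, ha⟩ := ha
    rw [Finset.mem_coe, Finset.mem_image]
    exact ⟨p, hp, (sub_eq_zero.1 (h p hp _ ha)).symm⟩

theorem count_thm (hm : 0 < m) (O : Outer m) (B : Boxes m k) :
    ((∀ e, Exceptional (B.size e) (lk O (B.off e) (B.size e))) ∧ 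
      ∀ a, (family O B a).fPoly = 1) ∨
    ∀ (A : Fin k → Finset ℤ) (U : Finset (Fin k → ℤ)),
      (∀ a ∈ U, (family O B a).fPoly = 1 ∧ ∀ e, a e ∈ A e) →
      U.card ≤ ∑ e, hNum (B.size e) (lk O (B.off e) (B.size e)) * 
        ∏ e' ∈ Finset.univ.erase e, (A e').card := by
  rcases zero_one _ _ (lineClosed hm O B) with h | h
  · exact Or.inl ⟨fun e => all_Exc hm O B h e, h⟩
  · exact Or.inr h

end Pool.Agent.H297.FT
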