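import Pool.Agent.H297.FT.Vas

set_option autoImplicit false

namespace Pool.Agent.H297.FT

open Finset LaurentPolynomial Pool.Agent.H891R2.Jones Pool.Agent.H832R3.VJ

variable {m k m' k' : ℕ}

/-- the line law for an arbitrary value `g` of the normalised bracket -/
theorem line_law_g (hm : 0 < m) (O : Outer m) (B : Boxes m k) (b v : Fin k → ℤ) (g : ℤ[T;T⁻¹]) :
    (∀ t : ℤ, (family O B (b + t • v)).fPoly = g) ∨
    (∀ T : Finset ℤ, (∀ t ∈ T, (family O B (b + t • v)).fPoly = g) → T.card ≤ mNum O B v) := by
  classical
  by_cases hT : ∀ T : Finset ℤ, (∀ t ∈ T, (family O B (b + t • v)).fPoly = g) → 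
      T.card ≤ mNum O B v
  · exact Or.inr hT
  left
  push Not at hT
  obtain ⟨T, hT, hc⟩ := hT
  let J : Finset ℤ := insert 0 (Finset.univ.image (fun r : Ind B => wt O B (some r) v))
  have hJ : J.card = mNum O B v + 1 := by
    unfold mNum
    rw [← Finset.card_insert_of_notMem (Finset.notMem_erase 0 _)]
    congr 1
    ext j
    simp only [J, Finset.mem_insert, Finset.mem_erase]
    tauto
  have hJeven : ∀ j ∈ J, ∃ i, j = 2 * i := by
    intro j hj
    rcases Finset.mem_insert.1 hj with rfl | hj
    · exact ⟨0, by simp⟩
    · obtain ⟨r, _, rfl⟩ := Finset.mem_image.1 hj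
      exact ⟨_, ux_wt O B v (some r)⟩
  have hinj : Set.InjOn (fun j : ℤ => j / 2) (J : Set ℤ) := by
    intro i hi j hj hij
    obtain ⟨i', rfl⟩ := hJeven i hi
    obtain ⟨j', rfl⟩ := hJeven j hj
    have : 2 * i' / 2 = 2 * j' / 2 := hij
    omega
  -- the formula on the line
  have hline : ∀ (N : ℕ) (hN : 3 ≤ N), ∃ c : ℤ → ℂ, ∀ t : ℤ, 
      ev N hN (family O B (b + t • v)).fPoly = ∑ j ∈ J, c j * (((xr N) ^ t : ℝ) : ℂ) ^ (j / 2) := by
    intro N hN
    obtain ⟨C, hC⟩ := formula hm O B N hN
    have hx0 : (xr N : ℂ) ≠ 0 := by
      rw [Complex.ofReal_ne_zero]; linarith [xr_gt N hN]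
    refine ⟨fun j => ∑ r ∈ (Finset.univ : Finset (Ind B)).filter (fun r => wt O B (some r) v = j), 
      C r * (xr N : ℂ) ^ (∑ e, kp O B e (r e) * b e), ?_⟩
    intro t
    rw [hC]
    have h1 : ∀ r : Ind B, C r * (xr N : ℂ) ^ (∑ e, kp O B e (r e) * (b + t • v) e) = 
        (C r * (xr N : ℂ) ^ (∑ e, kp O B e (r e) * b e)) * 
          (((xr N) ^ t : ℝ) : ℂ) ^ (wt O B (some r) v / 2) := by
      intro r
      have h2 : wt O B (some r) v / 2 = ∑ e, kp O B e (r e) * v e := by
        have := ux_wt O B v (some r)
        have h3 : ux O B v (some r) = ∑ e, kp O B e (r e) * v e := rfl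
        omega
      have h4 : ∑ e, kp O B e (r e) * (b + t • v) e = 
          ∑ e, kp O B e (r e) * b e + t * ∑ e, kp O B e (r e) * v e := by
        rw [Finset.mul_sum, ← Finset.sum_add_distrib]
        refine Finset.sum_congr rfl fun e _ => ?_
        simp only [Pi.add_apply, Pi.smul_apply, smul_eq_mul]
        ring
      rw [h2, h4, zpow_add₀ hx0, Complex.ofReal_zpow, ← zpow_mul]
      ring
    simp only [h1]
    rw [← Finset.sum_fiberwise_of_maps_to (s := Finset.univ) (t := J)
      (g := fun r : Ind B => wt O B (some r) v) (fun r _ => Finset.mem_insert_of_mem 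
        (Finset.mem_image_of_mem _ (Finset.mem_univ r)))]
    refine Finset.sum_congr rfl fun j _ => ?_
    rw [Finset.sum_mul]
    refine Finset.sum_congr rfl fun r hr => ?_
    rw [(Finset.mem_filter.1 hr).2]
  intro t
  apply ev_inj
  intro N hN
  obtain ⟨c, hc1⟩ := hline N hN
  have hx := xr_gt N hN
  have hz := exp_zero_complex J (fun j => j / 2) (fun j => c j - if j = 0 then ev N hN g else 0)
      (T.image (fun t => (xr N) ^ t)) hinj (by
        intro y hy
        rw [Finset.mem_image] at hy
        obtain ⟨a, _, rfl⟩ := hy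
        exact zpow_pos (by linarith) a) (by
        rw [hJ, Finset.card_image_of_injective _ (zpow_right_injective₀ (by linarith) (by linarith))]
        omega) (by
        intro y hy
        rw [Finset.mem_image] at hy
        obtain ⟨t, ht, rfl⟩ := hy
        have h1 := hc1 t
        rw [hT t ht] at h1
        have h3 : ∀ j ∈ J, (c j - if j = 0 then ev N hN g else 0) * (((xr N) ^ t : ℝ) : ℂ) ^ (j / 2) = 
            c j * (((xr N) ^ t : ℝ) : ℂ) ^ (j / 2) - if j = 0 then ev N hN g else 0 := by
          intro j _
          by_cases hj : j = 0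
          · subst hj; simp
          · simp [hj]
        rw [Finset.sum_congr rfl h3, Finset.sum_sub_distrib, ← h1, Finset.sum_ite_eq' J 0,
          if_pos (Finset.mem_insert_self _ _), sub_self])
  rw [hc1 t, Finset.sum_eq_single 0]
  · have := hz 0 (Finset.mem_insert_self _ _)
    rw [if_pos rfl, sub_eq_zero] at this
    rw [this]
    simp
  · intro j hj hne
    have := hz j hj
    rw [if_neg hne, sub_zero] at this
    rw [this, zero_mul]
  · intro h
    exact absurd (Finset.mem_insert_self _ _) h

/-- lines parallel to the axes -/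
theorem axis_law (hm : 0 < m) (O : Outer m) (B : Boxes m k) (e : Fin k) (a : Fin k → ℤ) 
    (g : ℤ[T;T⁻¹]) (T : Finset ℤ) (hT : ∀ t ∈ T, (family O B (Function.update a e t)).fPoly = g)
    (hc : mNum O B (Pi.single e 1) < T.card) (t : ℤ) : 
    (family O B (Function.update a e t)).fPoly = g := by
  have hupd : ∀ t : ℤ, Function.update a e t = 
      Function.update a e 0 + t • (Pi.single e 1 : Fin k → ℤ) := by
    intro t
    funext j
    by_cases hj : j = e
    · subst hj; simp
    · simp [hj]
  rcases line_law_g hm O B (Function.update a e 0) (Pi.single e 1) g with h | h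
  · rw [hupd]; exact h t
  · exfalso
    have := h T (fun t ht => by rw [← hupd]; exact hT t ht)
    omega

/-- the first and the second part of an integer vector -/
def fstV (c : Fin (k + k') → ℤ) : Fin k → ℤ := fun i => c (Fin.castAdd k' i)

def sndV (c : Fin (k + k') → ℤ) : Fin k' → ℤ := fun i => c (Fin.natAdd k i)

theorem pair_lineClosed (hm : 0 < m) (hm' : 0 < m') (O : Outer m) (B : Boxes m k) (O' : Outer m')
    (B' : Boxes m' k') :
    LineClosed (k := k + k') (fun e => Fin.addCases (fun i => mNum O B (Pi.single i 1)) 
      (fun i => mNum O' B' (Pi.single i 1)) e)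
      {c | (family O B (fstV c)).fPoly = (family O' B' (sndV c)).fPoly} := by
  intro e c T hT hc t
  have hcc : Fin.addCases (motive := fun _ => ℕ) (fun i => mNum O B (Pi.single i 1)) 
      (fun i => mNum O' B' (Pi.single i 1)) e < T.card := hc
  refine Fin.addCases (motive := fun e => e = e → 
    (Fin.addCases (motive := fun _ => ℕ) (fun i => mNum O B (Pi.single i 1)) 
      (fun i => mNum O' B' (Pi.single i 1)) e < T.card) → 
    (∀ t ∈ T, Function.update c e t ∈ 
      {c : Fin (k + k') → ℤ | (family O B (fstV c)).fPoly = (family O' B' (sndV c)).fPoly}) → 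
    Function.update c e t ∈ 
      {c : Fin (k + k') → ℤ | (family O B (fstV c)).fPoly = (family O' B' (sndV c)).fPoly}) 
      ?_ ?_ e rfl hcc hT
  · intro i _ hc hT
    rw [Fin.addCases_left] at hc
    have h1 : ∀ t : ℤ, fstV (k' := k') (Function.update c (Fin.castAdd k' i) t) = 
        Function.update (fstV c) i t := by
      intro t
      funext j
      unfold fstV
      by_cases hj : j = i
      · subst hj; simp
      · rw [Function.update_of_ne hj, Function.update_of_ne]
        intro h
        exact hj (Fin.castAdd_injective _ _ h)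
    have h2 : ∀ t : ℤ, sndV (k := k) (Function.update c (Fin.castAdd k' i) t) = sndV c := by
      intro t
      funext j
      unfold sndV
      rw [Function.update_of_ne]
      intro h
      have := congrArg Fin.val h
      simp only [Fin.val_natAdd, Fin.val_castAdd] at this
      omega
    have hT' : ∀ t ∈ T, (family O B (Function.update (fstV c) i t)).fPoly = 
        (family O' B' (sndV c)).fPoly := by
      intro t ht
      have h3 := hT t ht
      rw [Set.mem_ofPred_eq, h1, h2] at h3
      exact h3
    rw [Set.mem_ofPred_eq, h1, h2]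
    exact axis_law hm O B i (fstV c) _ T hT' hc t
  · intro i _ hc hT
    rw [Fin.addCases_right] at hc
    have h1 : ∀ t : ℤ, sndV (k := k) (Function.update c (Fin.natAdd k i) t) = 
        Function.update (sndV c) i t := by
      intro t
      funext j
      unfold sndV
      by_cases hj : j = i
      · subst hj; simp
      · rw [Function.update_of_ne hj, Function.update_of_ne]
        intro h
        exact hj (Fin.natAdd_injective _ _ h)
    have h2 : ∀ t : ℤ, fstV (k' := k') (Function.update c (Fin.natAdd k i) t) = fstV c := by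
      intro t
      funext j
      unfold fstV
      rw [Function.update_of_ne]
      intro h
      have := congrArg Fin.val h
      simp only [Fin.val_natAdd, Fin.val_castAdd] at this
      omega
    have hT' : ∀ t ∈ T, (family O' B' (Function.update (sndV c) i t)).fPoly = 
        (family O B (fstV c)).fPoly := by
      intro t ht
      have h3 := hT t ht
      rw [Set.mem_ofPred_eq, h1, h2] at h3
      exact h3.symm
    rw [Set.mem_ofPred_eq, h1, h2]
    exact (axis_law hm' O' B' i (sndV c) _ T hT' hc t).symm

theorem fstV_append (a : Fin k → ℤ) (a' : Fin k' → ℤ) : fstV (Fin.append a a') = a := by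
  funext i
  exact Fin.append_left _ _ _

theorem sndV_append (a : Fin k → ℤ) (a' : Fin k' → ℤ) : sndV (Fin.append a a') = a' := by
  funext i
  exact Fin.append_right _ _ _

theorem pair_count (hm : 0 < m) (hm' : 0 < m') (O : Outer m) (B : Boxes m k) (O' : Outer m')
    (B' : Boxes m' k') :
    (∀ a a', (family O B a).fPoly = (family O' B' a').fPoly) ∨
    ∀ (A : Fin k → Finset ℤ) (A' : Fin k' → Finset ℤ) (U : Finset ((Fin k → ℤ) × (Fin k' → ℤ))),
      (∀ p ∈ U, (family O B p.1).fPoly = (family O' B' p.2).fPoly ∧ (∀ e, p.1 e ∈ A e) ∧ 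
        (∀ e, p.2 e ∈ A' e)) →
      U.card ≤ (∑ e, mNum O B (Pi.single e 1) * ∏ e' ∈ Finset.univ.erase e, (A e').card) * 
          (∏ e, (A' e).card) + 
        (∏ e, (A e).card) * 
          (∑ e, mNum O' B' (Pi.single e 1) * ∏ e' ∈ Finset.univ.erase e, (A' e').card) := by
  rcases zero_one_aux _ _ _ (pair_lineClosed hm hm' O B O' B') with h | h
  · left
    intro a a'
    have := h (Fin.append a a')
    rw [Set.mem_ofPred_eq, fstV_append, sndV_append] at this
    exact this
  · right
    intro A A' U hU
    classical
    have hinj : Function.Injective (fun p : (Fin k → ℤ) × (Fin k' → ℤ) => Fin.append p.1 p.2) := by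
      rintro ⟨a, a'⟩ ⟨b, b'⟩ hab
      have h1 : fstV (Fin.append a a') = fstV (Fin.append b b') := congrArg fstV hab
      have h2 : sndV (Fin.append a a') = sndV (Fin.append b b') := congrArg sndV hab
      rw [fstV_append, fstV_append] at h1
      rw [sndV_append, sndV_append] at h2
      rw [h1, h2]
    have h1 := h (fun e => Fin.addCases (motive := fun _ => Finset ℤ) A A' e) 
      (U.image (fun p => Fin.append p.1 p.2)) (by
        intro c hc
        obtain ⟨p, hp, rfl⟩ := Finset.mem_image.1 hc
        obtain ⟨h2, h3, h4⟩ := hU p hp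
        refine ⟨?_, ?_⟩
        · rw [Set.mem_ofPred_eq, fstV_append, sndV_append]
          exact h2
        · intro e
          refine Fin.addCases (motive := fun e => Fin.append p.1 p.2 e ∈ 
            Fin.addCases (motive := fun _ => Finset ℤ) A A' e) ?_ ?_ e
          · intro i
            rw [Fin.append_left, Fin.addCases_left]
            exact h3 i
          · intro i
            rw [Fin.append_right, Fin.addCases_right]
            exact h4 i)
    rw [Finset.card_image_of_injective _ hinj, Fin.sum_univ_add] at h1
    refine le_trans h1 (le_of_eq ?_)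
    rw [Finset.sum_mul, Finset.mul_sum]
    have hpe : ∀ {n : ℕ} (F : Fin n → ℕ) (e : Fin n), (∏ e', if e' = e then 1 else F e') = 
        ∏ e' ∈ Finset.univ.erase e, F e' := by
      intro n F e
      rw [← Finset.mul_prod_erase Finset.univ _ (Finset.mem_univ e), if_pos rfl, one_mul]
      refine Finset.prod_congr rfl fun e' he' => ?_
      rw [if_neg (Finset.ne_of_mem_erase he')]
    congr 1
    · refine Finset.sum_congr rfl fun e _ => ?_
      rw [Fin.addCases_left, Fin.prod_univ_add, mul_assoc]
      congr 1
      rw [← hpe (fun e' => (A e').card) e]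
      congr 1
      · refine Finset.prod_congr rfl fun e' _ => ?_
        rw [Fin.addCases_left]
        by_cases he : e' = e
        · subst he; simp
        · rw [if_neg he, if_neg]
          intro h2
          exact he (Fin.castAdd_injective _ _ h2)
      · refine Finset.prod_congr rfl fun e' _ => ?_
        rw [Fin.addCases_right, if_neg]
        intro h2
        have := congrArg Fin.val h2
        simp only [Fin.val_natAdd, Fin.val_castAdd] at this
        omega
    · refine Finset.sum_congr rfl fun e _ => ?_
      rw [Fin.addCases_right, Fin.prod_univ_add, mul_left_comm]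
      congr 1
      · refine Finset.prod_congr rfl fun e' _ => ?_
        rw [Fin.addCases_left, if_neg]
        intro h2
        have := congrArg Fin.val h2
        simp only [Fin.val_natAdd, Fin.val_castAdd] at this
        omega
      · rw [← hpe (fun e' => (A' e').card) e]
        congr 1
        refine Finset.prod_congr rfl fun e' _ => ?_
        rw [Fin.addCases_right]
        by_cases he : e' = e
        · subst he; simp
        · rw [if_neg he, if_neg]
          intro h2
          exact he (Fin.natAdd_injective _ _ h2)

open Classical in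
theorem pair_thm (hm : 0 < m) (hm' : 0 < m') (O : Outer m) (B : Boxes m k) (O' : Outer m')
    (B' : Boxes m' k') : ∃ d : ℕ, 
    (∀ a a', (family O B a).fPoly ≠ (family O' B' a').fPoly → 
      Separated d (dia O B a) (dia O' B' a')) ∧ 
    ((∀ a a', (family O B a).fPoly = (family O' B' a').fPoly) ∨
    ∀ (A : Fin k → Finset ℤ) (A' : Fin k' → Finset ℤ),
      ((Fintype.piFinset A ×ˢ Fintype.piFinset A').filter (fun p => 
        ¬ Separated d (dia O B p.1) (dia O' B' p.2))).card ≤ 
        (∑ e, mNum O B (Pi.single e 1) * ∏ e' ∈ Finset.univ.erase e, (A e').card) * 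
          (∏ e, (A' e).card) + 
        (∏ e, (A e).card) * 
          (∑ e, mNum O' B' (Pi.single e 1) * ∏ e' ∈ Finset.univ.erase e, (A' e').card)) := by
  obtain ⟨d, hd⟩ := uniform_pair hm hm' O B O' B'
  refine ⟨d, hd, ?_⟩
  rcases pair_count hm hm' O B O' B' with h | h
  · exact Or.inl h
  · right
    intro A A'
    refine h A A' _ ?_
    intro p hp
    rw [Finset.mem_filter, Finset.mem_product, Fintype.mem_piFinset, Fintype.mem_piFinset] at hp
    refine ⟨?_, hp.1.1, hp.1.2⟩
    by_contra hne
    exact hp.2 (hd _ _ hne)

/-- `mNum` of a unit vector -/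
theorem mNum_single_le (O : Outer m) (B : Boxes m k) (e : Fin k) : 
    mNum O B (Pi.single e 1) ≤ B.size e / 2 + 1 := by
  classical
  unfold mNum
  refine le_trans (Finset.card_le_card (Finset.erase_subset _ _)) ?_
  have : (Finset.univ.image (fun r : Ind B => wt O B (some r) (Pi.single e 1))) ⊆ 
      (Finset.range (B.size e / 2 + 1)).image (fun i => 
        (((B.size e - 2 * i : ℕ) : ℤ) * ((B.size e - 2 * i : ℕ) + 2) - 
          3 * (lk O (B.off e) (B.size e)) ^ 2)) := by
    intro j hj
    obtain ⟨r, _, rfl⟩ := Finset.mem_image.1 hj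
    rw [Finset.mem_image]
    refine ⟨r e, Finset.mem_range.2 (r e).2, ?_⟩
    have hw : wt O B (some r) (Pi.single e 1) = ∑ e', 
        (((B.size e' - 2 * (r e' : ℕ) : ℕ) : ℤ) * ((B.size e' - 2 * (r e' : ℕ) : ℕ) + 2) - 
          3 * (lk O (B.off e') (B.size e')) ^ 2) * (Pi.single e 1 : Fin k → ℤ) e' := rfl
    rw [hw, Finset.sum_eq_single e]
    · simp
    · intro e' _ he'
      simp [he']
    · intro h
      exact absurd (Finset.mem_univ _) h
  refine le_trans (Finset.card_le_card this) ?_
  refine le_trans Finset.card_image_le ?_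
  rw [Finset.card_range]

end Pool.Agent.H297.FT
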