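import Pool.Agent.H297.FT.Line

set_option autoImplicit false

namespace Pool.Agent.H297.FT

open Finset LaurentPolynomial Pool.Agent.H891R2.Jones

/-- finitely many nonzero linear forms do not vanish at some integer vector -/
theorem exists_generic {k : ℕ} (U : Finset (Fin k → ℤ)) : (∀ u ∈ U, u ≠ 0) → 
    ∃ v : Fin k → ℤ, ∀ u ∈ U, ∑ e, u e * v e ≠ 0 := by
  classical
  induction U using Finset.induction_on with
  | empty => intro _; exact ⟨0, by simp⟩
  | insert u U _ ih =>
    intro hU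
    obtain ⟨v, hv⟩ := ih (fun u' hu' => hU u' (Finset.mem_insert_of_mem hu'))
    obtain ⟨e₀, he₀⟩ : ∃ e, u e ≠ 0 := by
      by_contra hcon
      push Not at hcon
      exact hU u (Finset.mem_insert_self _ _) (funext hcon)
    let M : ℤ := 1 + ∑ u' ∈ insert u U, |u' e₀|
    have hM : ∀ u' ∈ insert u U, |u' e₀| < M := by
      intro u' hu'
      have := Finset.single_le_sum (f := fun u' : Fin k → ℤ => |u' e₀|) 
        (fun _ _ => abs_nonneg _) hu'
      simp only [M]
      linarith
    have hval : ∀ u' : Fin k → ℤ, ∑ e, u' e * (M • v + Pi.single e₀ 1 : Fin k → ℤ) e = 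
        M * (∑ e, u' e * v e) + u' e₀ := by
      intro u'
      have h1 : ∀ e, u' e * (M • v + Pi.single e₀ 1 : Fin k → ℤ) e = M * (u' e * v e) + 
          (if e = e₀ then u' e₀ else 0) := by
        intro e
        simp only [Pi.add_apply, Pi.smul_apply, smul_eq_mul, Pi.single_apply]
        by_cases he : e = e₀
        · subst he; simp; ring
        · simp [he]; ring
      rw [Finset.sum_congr rfl (fun e _ => h1 e), Finset.sum_add_distrib, ← Finset.mul_sum,
        Finset.sum_ite_eq' Finset.univ e₀, if_pos (Finset.mem_univ _)]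
    refine ⟨M • v + Pi.single e₀ 1, ?_⟩
    intro u' hu'
    rw [hval]
    intro h0
    have hMu := hM u' hu'
    by_cases hz : ∑ e, u' e * v e = 0
    · rw [hz, mul_zero, zero_add] at h0
      rcases Finset.mem_insert.1 hu' with rfl | h
      · exact he₀ h0
      · exact hv u' h hz
    · have h1 : 1 ≤ |∑ e, u' e * v e| := Int.one_le_abs hz
      have h2 : |u' e₀| = |M| * |∑ e, u' e * v e| := by
        rw [← abs_mul]
        have : u' e₀ = -(M * ∑ e, u' e * v e) := by linarith
        rw [this, abs_neg]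
      have h3 : M ≤ |M| := le_abs_self M
      have h4 : 0 ≤ |M| := abs_nonneg M
      nlinarith

variable {m k : ℕ}

theorem ev_inj (f g : ℤ[T;T⁻¹]) (h : ∀ N (hN : 3 ≤ N), ev N hN f = ev N hN g) : f = g := by
  have := eq_one_of_ev (f - g + 1) (fun N hN => by
    rw [map_add, map_sub, h N hN, map_one, sub_self, zero_add])
  have h2 : f - g = 0 := by
    have h3 := congrArg (fun z => z - 1) this
    simpa using h3
  exact sub_eq_zero.1 h2

theorem T_inj {a b : ℤ} (h : (T a : ℤ[T;T⁻¹]) = T b) : a = b := by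
  have h1 := congrArg (ev 3 le_rfl) h
  rw [ev_T, ev_T] at h1
  exact Ar_zpow_inj 3 le_rfl h1

/-- the formula with powers of `A` -/
theorem formulaA (hm : 0 < m) (O : Outer m) (B : Boxes m k) (N : ℕ) (hN : 3 ≤ N) :
    ∃ C : Ind B → ℂ, ∀ a : Fin k → ℤ, ev N hN (family O B a).fPoly = 
      ∑ r : Ind B, C r * ev N hN (T (wt O B (some r) a)) := by
  obtain ⟨C, hC⟩ := formula hm O B N hN
  refine ⟨C, fun a => ?_⟩
  rw [hC]
  refine Finset.sum_congr rfl fun r _ => ?_
  congr 1
  rw [ev_T]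
  have hspec : ∀ e, ∃ t : ℤ, (((B.size e - 2 * (r e : ℕ) : ℕ) : ℤ) * ((B.size e - 2 * (r e : ℕ) : ℕ) + 2) - 
        3 * (lk O (B.off e) (B.size e)) ^ 2) = 4 * t ∧ kp O B e (r e) = 2 * t := fun e =>
      kap_spec (lk_parity O (B.le e)) (r e).2
  choose t ht ht' using hspec
  have e1 : wt O B (some r) a = 4 * ∑ e, t e * a e := by
    unfold wt
    rw [Finset.mul_sum]
    refine Finset.sum_congr rfl fun e _ => ?_
    rw [ht e]; ring
  have e2 : ∑ e, kp O B e (r e) * a e = 2 * ∑ e, t e * a e := by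
    rw [Finset.mul_sum]
    refine Finset.sum_congr rfl fun e _ => ?_
    rw [ht' e]; ring
  rw [e1, e2, Ar_zpow_four N hN]

/-- the linear forms are different -/
theorem wt_ne (O : Outer m) (B : Boxes m k) {r r' : Ind B} (h : r ≠ r') : 
    (fun e => ((((B.size e - 2 * (r e : ℕ) : ℕ) : ℤ) * ((B.size e - 2 * (r e : ℕ) : ℕ) + 2) - 
      3 * (lk O (B.off e) (B.size e)) ^ 2) - 
      (((B.size e - 2 * (r' e : ℕ) : ℕ) : ℤ) * ((B.size e - 2 * (r' e : ℕ) : ℕ) + 2) - 
      3 * (lk O (B.off e) (B.size e)) ^ 2))) ≠ (0 : Fin k → ℤ) := by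
  intro h0
  apply h
  funext e
  have h1 := congrFun h0 e
  simp only [Pi.zero_apply] at h1
  have hi' := (r e).2
  have hj' := (r' e).2
  have h3 : (((B.size e - 2 * (r e : ℕ) : ℕ) : ℤ) + 1)^2 = (((B.size e - 2 * (r' e : ℕ) : ℕ) : ℤ) + 1)^2 := by 
    linarith
  have h4 : ((B.size e - 2 * (r e : ℕ) : ℕ) : ℤ) + 1 = ((B.size e - 2 * (r' e : ℕ) : ℕ) : ℤ) + 1 := by
    rw [sq_eq_sq₀ (by positivity) (by positivity)] at h3
    exact h3
  apply Fin.ext
  omega

/-- a direction in which all the linear forms have different values -/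
theorem exists_dir (O : Outer m) (B : Boxes m k) : ∃ v : Fin k → ℤ, 
    Function.Injective (fun r : Ind B => wt O B (some r) v) := by
  classical
  obtain ⟨v, hv⟩ := exists_generic (((Finset.univ : Finset (Ind B × Ind B)).filter 
    (fun p => p.1 ≠ p.2)).image (fun p => (fun e => 
    ((((B.size e - 2 * (p.1 e : ℕ) : ℕ) : ℤ) * ((B.size e - 2 * (p.1 e : ℕ) : ℕ) + 2) - 
      3 * (lk O (B.off e) (B.size e)) ^ 2) - 
      (((B.size e - 2 * (p.2 e : ℕ) : ℕ) : ℤ) * ((B.size e - 2 * (p.2 e : ℕ) : ℕ) + 2) - 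
      3 * (lk O (B.off e) (B.size e)) ^ 2)) : Fin k → ℤ))) (by
    intro u hu
    obtain ⟨p, hp, rfl⟩ := Finset.mem_image.1 hu
    exact wt_ne O B (Finset.mem_filter.1 hp).2)
  refine ⟨v, ?_⟩
  intro r r' hrr
  by_contra hne
  have h1 := hv _ (Finset.mem_image_of_mem _ (Finset.mem_filter.2 ⟨Finset.mem_univ (r, r'), hne⟩))
  apply h1
  have h2 : wt O B (some r) v - wt O B (some r') v = 0 := sub_eq_zero.2 hrr
  unfold wt at h2
  rw [← Finset.sum_sub_distrib] at h2
  rw [← h2]
  refine Finset.sum_congr rfl fun e _ => ?_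
  ring

/-- the polynomial formula -/
theorem poly_formula (hm : 0 < m) (O : Outer m) (B : Boxes m k) :
    ∃ (Q : ℤ[T;T⁻¹]) (P : Ind B → ℤ[T;T⁻¹]), Q ≠ 0 ∧ ∀ a : Fin k → ℤ, 
      Q * (family O B a).fPoly = ∑ r : Ind B, P r * T (wt O B (some r) a) := by
  classical
  obtain ⟨v, hv⟩ := exists_dir O B
  let n := Fintype.card (Ind B)
  let σ : Fin n ≃ Ind B := (Fintype.equivFin (Ind B)).symm
  let V : Matrix (Fin n) (Fin n) ℤ[T;T⁻¹] := Matrix.vandermonde (fun i => T (wt O B (some (σ i)) v))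
  let b : Fin n → ℤ[T;T⁻¹] := fun j => (family O B ((j : ℤ) • v)).fPoly
  let P' : Fin n → ℤ[T;T⁻¹] := Matrix.vecMul b V.adjugate
  have hdet : V.det ≠ 0 := by
    apply Matrix.det_vandermonde_ne_zero_iff.2
    intro i j hij
    have h1 := T_inj hij
    exact σ.injective (hv h1)
  refine ⟨V.det, fun r => P' (σ.symm r), hdet, ?_⟩
  intro a
  apply ev_inj
  intro N hN
  obtain ⟨C, hC⟩ := formulaA hm O B N hN
  -- values at the points of the line
  have hwt : ∀ (r : Ind B) (j : Fin n), (T (wt O B (some r) ((j : ℤ) • v)) : ℤ[T;T⁻¹]) = 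
      (T (wt O B (some r) v)) ^ (j : ℕ) := by
    intro r j
    rw [T_pow]
    congr 1
    unfold wt
    rw [Finset.mul_sum]
    refine Finset.sum_congr rfl fun e _ => ?_
    simp only [Pi.smul_apply, smul_eq_mul]
    ring
  have hb : (fun j => ev N hN (b j)) = 
      Matrix.vecMul (fun i => C (σ i)) (V.map (ev N hN)) := by
    funext j
    simp only [b, Matrix.vecMul, dotProduct, Matrix.map_apply]
    rw [hC, ← σ.sum_comp]
    refine Finset.sum_congr rfl fun i _ => ?_
    rw [hwt]
    rfl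
  have hP : ∀ i, ev N hN (P' i) = ev N hN V.det * C (σ i) := by
    intro i
    have h1 : (fun i => ev N hN (P' i)) = Matrix.vecMul (fun j => ev N hN (b j)) 
        ((V.map (ev N hN)).adjugate) := by
      funext i
      simp only [P', Matrix.vecMul, dotProduct]
      rw [map_sum]
      refine Finset.sum_congr rfl fun j _ => ?_
      rw [map_mul]
      congr 1
      have h2 := RingHom.map_adjugate (ev N hN) V
      have h3 := congrFun (congrFun h2 j) i
      exact h3
    rw [hb, Matrix.vecMul_vecMul, Matrix.mul_adjugate, Matrix.vecMul_smul, Matrix.vecMul_one] at h1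
    have h4 := congrFun h1 i
    simp only [Pi.smul_apply, smul_eq_mul] at h4
    rw [h4]
    congr 1
    exact (RingHom.map_det (ev N hN) V).symm
  rw [map_mul, hC, map_sum, Finset.mul_sum]
  refine Finset.sum_congr rfl fun r _ => ?_
  rw [map_mul, hP, Equiv.apply_symm_apply]
  ring

end Pool.Agent.H297.FT
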