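import Pool.Agent.H297.FT.Poly
import Pool.Agent.H832R3.VJ.Fin

set_option autoImplicit false

namespace Pool.Agent.H297.FT

open Finset LaurentPolynomial Pool.Agent.H891R2.Jones Pool.Agent.H832R3.VJ

theorem card_support_add (f g : ℤ[T;T⁻¹]) :
    (f + g).coeff.support.card ≤ f.coeff.support.card + g.coeff.support.card := by
  classical
  have h : (f + g).coeff.support ⊆ f.coeff.support ∪ g.coeff.support := by
    intro j hj
    rw [Finsupp.mem_support_iff] at hj
    rw [Finset.mem_union, Finsupp.mem_support_iff, Finsupp.mem_support_iff]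
    by_contra hcon
    push Not at hcon
    apply hj
    rw [AddMonoidAlgebra.coeff_add, Finsupp.add_apply, hcon.1, hcon.2, add_zero]
  exact (Finset.card_le_card h).trans (Finset.card_union_le _ _)

theorem card_support_sum {ι : Type*} (s : Finset ι) (f : ι → ℤ[T;T⁻¹]) :
    (∑ i ∈ s, f i).coeff.support.card ≤ ∑ i ∈ s, (f i).coeff.support.card := by
  classical
  induction s using Finset.induction_on with
  | empty => simp
  | insert i s hi ih =>
    rw [Finset.sum_insert hi, Finset.sum_insert hi]
    exact (card_support_add _ _).trans (Nat.add_le_add_left ih _)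

theorem card_support_mul_T (f : ℤ[T;T⁻¹]) (j : ℤ) :
    (f * T j).coeff.support.card ≤ f.coeff.support.card := by
  have h := FinL.card_support_unit 1 j f
  have h1 : (C 1 * T j * f : ℤ[T;T⁻¹]) = f * T j := by
    rw [map_one, one_mul, mul_comm]
  rwa [h1] at h

variable {m k m' k' : ℕ}

/-- the diagram with its finite set of marked points -/
def dia (O : Outer m) (B : Boxes m k) (a : Fin k → ℤ) : Dia := 
  ⟨(fill O B a).P, inferInstance, family O B a⟩

/-- two families: Vassiliev invariants of bounded order separate whatever the normalised bracket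
separates -/
theorem uniform_pair (hm : 0 < m) (hm' : 0 < m') (O : Outer m) (B : Boxes m k) (O' : Outer m') 
    (B' : Boxes m' k') : ∃ d : ℕ, ∀ (a : Fin k → ℤ) (a' : Fin k' → ℤ), 
      (family O B a).fPoly ≠ (family O' B' a').fPoly → Separated d (dia O B a) (dia O' B' a') := by
  obtain ⟨Q, P, hQ, hP⟩ := poly_formula hm O B
  obtain ⟨Q', P', hQ', hP'⟩ := poly_formula hm' O' B'
  refine ⟨((∑ r : Ind B, (Q' * P r).coeff.support.card) + 
    (∑ r : Ind B', (Q * P' r).coeff.support.card)) - 1, ?_⟩
  intro a a' hne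
  refine separated_of_ne _ (dia O B a) (dia O' B' a') (Q * Q') (mul_ne_zero hQ hQ') ?_ hne
  have h1 : Q * Q' * ((dia O B a).D.fPoly - (dia O' B' a').D.fPoly) = 
      ∑ r : Ind B, (Q' * P r) * T (wt O B (some r) a) - 
      ∑ r : Ind B', (Q * P' r) * T (wt O' B' (some r) a') := by
    have e1 : Q * Q' * ((dia O B a).D.fPoly - (dia O' B' a').D.fPoly) = 
        Q' * (Q * (family O B a).fPoly) - Q * (Q' * (family O' B' a').fPoly) := by
      show Q * Q' * ((family O B a).fPoly - (family O' B' a').fPoly) = _
      ring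
    rw [e1, hP, hP', Finset.mul_sum, Finset.mul_sum]
    simp only [mul_assoc]
  rw [h1]
  refine (FinL.card_support_sub _ _).trans (Nat.add_le_add ?_ ?_)
  · exact (card_support_sum _ _).trans (Finset.sum_le_sum fun r _ => card_support_mul_T _ _)
  · exact (card_support_sum _ _).trans (Finset.sum_le_sum fun r _ => card_support_mul_T _ _)

/-- one family and the unknot -/
theorem uniform_unknot (hm : 0 < m) (O : Outer m) (B : Boxes m k) : 
    ∃ d : ℕ, ∀ (a : Fin k → ℤ), (family O B a).fPoly ≠ 1 → Separated d (dia O B a) unknot := by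
  obtain ⟨Q, P, hQ, hP⟩ := poly_formula hm O B
  refine ⟨((∑ r : Ind B, (P r).coeff.support.card) + Q.coeff.support.card) - 1, ?_⟩
  intro a hne
  refine separated_of_ne _ (dia O B a) unknot Q hQ ?_ (by rw [fPoly_unknot]; exact hne)
  have h1 : Q * ((dia O B a).D.fPoly - unknot.D.fPoly) = 
      ∑ r : Ind B, P r * T (wt O B (some r) a) - Q := by
    rw [fPoly_unknot, mul_sub, mul_one, ← hP a]
    rfl
  rw [h1]
  refine (FinL.card_support_sub _ _).trans (Nat.add_le_add ?_ le_rfl)
  exact (card_support_sum _ _).trans (Finset.sum_le_sum fun r _ => card_support_mul_T _ _)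

open Classical in
theorem vassiliev_thm (hm : 0 < m) (O : Outer m) (B : Boxes m k) :
    ∃ d : ℕ, (∀ a : Fin k → ℤ, (family O B a).fPoly ≠ 1 → Separated d (dia O B a) unknot) ∧
      (((∀ e, Exceptional (B.size e) (lk O (B.off e) (B.size e))) ∧ 
        ∀ a, (family O B a).fPoly = 1) ∨
      ∀ A : Fin k → Finset ℤ, 
        ((Fintype.piFinset A).filter (fun a => ¬ Separated d (dia O B a) unknot)).card ≤ 
          ∑ e, hNum (B.size e) (lk O (B.off e) (B.size e)) * 
            ∏ e' ∈ Finset.univ.erase e, (A e').card) := by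
  obtain ⟨d, hd⟩ := uniform_unknot hm O B
  refine ⟨d, hd, ?_⟩
  rcases count_thm hm O B with h | h
  · exact Or.inl h
  · right
    intro A
    refine h A _ ?_
    intro a ha
    rw [Finset.mem_filter, Fintype.mem_piFinset] at ha
    refine ⟨?_, ha.1⟩
    by_contra hne
    exact ha.2 (hd a hne)

end Pool.Agent.H297.FT
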